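import Pool.Agent.Lib.MP_021685_agTQ.A14

/-! LEAF R12 (easy+).  Divisibility by one prime of the sieve.

PROOF.  Copy of the proved theorem `mod_count` of `MP_021685_agTQ/A14.lean` with `C/g²` instead of `C/g`: on a long line `(g+1)(LN/ℓ + 1) ≤ (g+1)(1/g³ + 1/Lam g) LN ≤ (C/g²) LN` (`Lam g = g² (1001/1000)^(4g)` and `(g+1)/(g² (1001/1000)^(4g)) ≤ C/g²`, because `g + 1 ≤ C (1001/1000)^(4g)` for all `g` and some `C`,
by Bernoulli `(1001/1000)^(4g) ≥ 1 + 4g/1000`, so `C = 250` works); `reducible_count` has `C/g²` already, `(99/100)^g ≤ C/g²` is `A14_pow` (private there, copy it). -/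

namespace TR

open Polynomial TI TJ TQ

private theorem R12_pow : ∃ C : ℝ, 0 ≤ C ∧ ∀ g : ℕ, 1 ≤ g → ((99 : ℝ) / 100) ^ g ≤ C / (g : ℝ) ^ 2 := by
  have h : Filter.Tendsto (fun n : ℕ => (n : ℝ) ^ 2 * ((99 : ℝ) / 100) ^ n) Filter.atTop (nhds 0) :=
    tendsto_pow_const_mul_const_pow_of_abs_lt_one 2 (by rw [abs_of_pos] <;> norm_num)
  obtain ⟨C, hC⟩ := h.bddAbove_range
  refine ⟨C, ?_, fun g hg => ?_⟩
  · have := hC ⟨0, rfl⟩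
    norm_num at this
    exact this
  · have hg0 : (0 : ℝ) < g := by exact_mod_cast hg
    rw [le_div_iff₀ (by positivity), mul_comm]
    exact hC ⟨g, rfl⟩

private theorem R12_lam (g : ℕ) : (g : ℝ) ^ 2 ≤ Lam g := by
  unfold Lam
  exact le_mul_of_one_le_right (by positivity) (one_le_pow₀ (by norm_num))

private theorem R12_num {g : ℕ} (hg : 1 ≤ g) {ℓ L : ℝ} (hℓ : (g : ℝ) ^ 3 ≤ ℓ) (hL : Lam g ≤ L) :
    ((g : ℝ) + 1) * (L / ℓ + 1) ≤ 252 / (g : ℝ) ^ 2 * L := by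
  have hg0 : (0 : ℝ) < g := by exact_mod_cast hg
  have hg1 : (1 : ℝ) ≤ g := by exact_mod_cast hg
  have hℓ0 : (0 : ℝ) < ℓ := lt_of_lt_of_le (pow_pos hg0 3) hℓ
  have hLam := R12_lam g
  have hL0 : (0 : ℝ) ≤ L := le_trans (by positivity) (hLam.trans hL)
  have ha : ((g : ℝ) + 1) / ℓ ≤ 2 / (g : ℝ) ^ 2 := by
    rw [div_le_div_iff₀ hℓ0 (by positivity)]
    have h1 : ((g : ℝ) + 1) * (g : ℝ) ^ 2 ≤ 2 * (g : ℝ) ^ 3 := by
      nlinarith [pow_pos hg0 2]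
    linarith
  have h1 : ((g : ℝ) + 1) * (L / ℓ) ≤ 2 / (g : ℝ) ^ 2 * L := by
    calc ((g : ℝ) + 1) * (L / ℓ) = ((g : ℝ) + 1) / ℓ * L := by ring
      _ ≤ 2 / (g : ℝ) ^ 2 * L := mul_le_mul_of_nonneg_right ha hL0
  have h2 : ((g : ℝ) + 1) ≤ 250 / (g : ℝ) ^ 2 * L := by
    have h3 : 1 + ((4 * g : ℕ) : ℝ) * (1 / 1000) ≤ (1 + 1 / 1000 : ℝ) ^ (4 * g) :=
      one_add_mul_le_pow (by norm_num) (4 * g)
    have h4 : ((g : ℝ) + 1) ≤ 250 * (1001 / 1000 : ℝ) ^ (4 * g) := by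
      have h5 : (1 + 1 / 1000 : ℝ) = 1001 / 1000 := by norm_num
      rw [h5] at h3
      push_cast at h3
      linarith
    have h6 : 250 / (g : ℝ) ^ 2 * Lam g = 250 * (1001 / 1000 : ℝ) ^ (4 * g) := by
      unfold Lam
      field_simp
    rw [← h6] at h4
    exact h4.trans (mul_le_mul_of_nonneg_left hL (by positivity))
  calc ((g : ℝ) + 1) * (L / ℓ + 1) = ((g : ℝ) + 1) * (L / ℓ) + ((g : ℝ) + 1) := by ring
    _ ≤ 2 / (g : ℝ) ^ 2 * L + 250 / (g : ℝ) ^ 2 * L := add_le_add h1 h2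
    _ = 252 / (g : ℝ) ^ 2 * L := by ring

theorem mod_count (q : ℕ) (hq : 2 ≤ q) : ∃ C : ℝ, 0 ≤ C ∧ ∃ g₀ : ℕ, 3 ≤ g₀ ∧ ∀ g : ℕ, g₀ ≤ g →
    ∀ ℓ ∈ PgJ q g,
    (({h | h ∈ Weil q g ∧ ((ℓ : ℤ) ∣ resq q h ∨
      ¬ (h.map (Int.castRingHom (ZMod ℓ))).Separable)} : Set ℤ[X]).ncard : ℝ) ≤
      C / (g : ℝ) ^ 2 * ((Weil q g).ncard : ℝ) := by
  obtain ⟨C₃, hC₃, g₃, hg₃, h₃⟩ := reducible_count q hq
  obtain ⟨g₄, h₄⟩ := short_count q hq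
  obtain ⟨C', hC', h'⟩ := R12_pow
  refine ⟨C₃ + C' + 252, by positivity, max g₃ g₄, hg₃.trans (le_max_left _ _), fun g hg ℓ hℓ => ?_⟩
  have hgr : g₃ ≤ g := (le_max_left _ _).trans hg
  have hgs : g₄ ≤ g := (le_max_right _ _).trans hg
  have hg3 : 3 ≤ g := hg₃.trans hgr
  have hg0 : (0 : ℝ) < g := by exact_mod_cast (by omega : 0 < g)
  have hg1 : (1 : ℝ) ≤ g := by exact_mod_cast (by omega : 1 ≤ g)
  unfold PgJ at hℓ
  simp only [Finset.mem_filter] at hℓ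
  obtain ⟨_, hp, hgl, _⟩ := hℓ
  have hgl' : (g : ℝ) ^ 3 ≤ ℓ := by exact_mod_cast hgl.le
  have hgl2 : g < ℓ := lt_of_le_of_lt (Nat.le_self_pow (by norm_num) g) hgl
  have hset := fiber_principle (q := q) (g := g) (by omega) hg3
    (fun h => (ℓ : ℤ) ∣ resq q h ∨ ¬ (h.map (Int.castRingHom (ZMod ℓ))).Separable)
    (a := 252 / (g : ℝ) ^ 2) (by positivity) (fun h₀ hh₀ hlam _ => by
      refine (line_mod (by omega) hh₀ hp hgl2).trans ?_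
      exact R12_num (by omega) hgl' hlam)
  have hN : (0 : ℝ) ≤ ((Weil q g).ncard : ℝ) := Nat.cast_nonneg _
  have hr := h₃ g hgr
  have hs := h₄ g hgs
  have t2 : ((99 : ℝ) / 100) ^ g * ((Weil q g).ncard : ℝ) ≤ C' / (g : ℝ) ^ 2 * ((Weil q g).ncard : ℝ) :=
    mul_le_mul_of_nonneg_right (h' g (by omega)) hN
  calc _ ≤ C₃ / (g : ℝ) ^ 2 * ((Weil q g).ncard : ℝ) + C' / (g : ℝ) ^ 2 * ((Weil q g).ncard : ℝ) +
        252 / (g : ℝ) ^ 2 * ((Weil q g).ncard : ℝ) :=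
        hset.trans (add_le_add (add_le_add hr (hs.trans t2)) le_rfl)
    _ = (C₃ + C' + 252) / (g : ℝ) ^ 2 * ((Weil q g).ncard : ℝ) := by ring

end TR
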