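import Mathlib

/-! The union bound for tuples, for a subset of any density (the file `MP_021685_agTI/S0.lean` has density `1/3`). -/

namespace TR

private theorem R14_cnt {α : Type} (Y : Finset α) (r : ℕ) (j : Fin r) (Q : (Fin r → α) → Prop)
    [DecidablePred Q] [hQd : ∀ t : Fin r → α, DecidablePred fun y => Q (Function.update t j y)]
    (c : ℝ) (hc : 0 ≤ c) (h : ∀ t : Fin r → α, (∀ i, t i ∈ Y) → Q t →
      ((Y.filter fun y => Q (Function.update t j y)).card : ℝ) ≤ c) :
    (((Fintype.piFinset fun _ : Fin r => Y).filter Q).card : ℝ) ≤ c * (Y.card : ℝ) ^ (r - 1) := by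
  classical
  set s := (Fintype.piFinset fun _ : Fin r => Y).filter Q with hs
  have h1 : s.card ≤ ⌊c⌋₊ * (s.image fun t => fun k : {k : Fin r // k ≠ j} => t k.1).card := by
    refine Finset.card_le_mul_card_image s _ fun w hw => ?_
    obtain ⟨t, ht, rfl⟩ := Finset.mem_image.mp hw
    rw [hs, Finset.mem_filter, Fintype.mem_piFinset] at ht
    refine (?_ : _ ≤ (Y.filter fun y => Q (Function.update t j y)).card).trans
      (Nat.le_floor (h t ht.1 ht.2))
    have hup : ∀ x : Fin r → α, (fun k : {k : Fin r // k ≠ j} => x k.1) =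
        (fun k : {k : Fin r // k ≠ j} => t k.1) → Function.update t j (x j) = x := by
      intro x hx
      funext k
      by_cases hk : k = j
      · rw [hk, Function.update_self]
      · rw [Function.update_of_ne hk]
        exact (congrFun hx ⟨k, hk⟩).symm
    refine Finset.card_le_card_of_injOn (fun x => x j) ?_ ?_
    · intro x hx
      obtain ⟨hx1, hx2⟩ := Finset.mem_filter.mp hx
      rw [hs, Finset.mem_filter, Fintype.mem_piFinset] at hx1
      refine Finset.mem_filter.mpr ⟨hx1.1 j, ?_⟩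
      rw [hup x hx2]
      exact hx1.2
    · intro x hx x' hx' hxx
      obtain ⟨hx1, hx2⟩ := Finset.mem_filter.mp hx
      obtain ⟨hx3, hx4⟩ := Finset.mem_filter.mp hx'
      have h5 : x j = x' j := hxx
      rw [← hup x hx2, ← hup x' hx4, h5]
  have h2 : (s.image fun t => fun k : {k : Fin r // k ≠ j} => t k.1).card ≤ Y.card ^ (r - 1) := by
    have h3 : (s.image fun t => fun k : {k : Fin r // k ≠ j} => t k.1) ⊆
        Fintype.piFinset fun _ : {k : Fin r // k ≠ j} => Y := by
      intro w hw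
      obtain ⟨t, ht, rfl⟩ := Finset.mem_image.mp hw
      rw [hs, Finset.mem_filter, Fintype.mem_piFinset] at ht
      exact Fintype.mem_piFinset.mpr fun k => ht.1 k.1
    have h4 := Finset.card_le_card h3
    rw [Fintype.card_piFinset, Finset.prod_const, Finset.card_univ, Fintype.card_subtype_compl,
      Fintype.card_fin, Fintype.card_unique] at h4
    exact h4
  have h3 : (s.card : ℝ) ≤ (⌊c⌋₊ : ℝ) * (Y.card : ℝ) ^ (r - 1) := by
    exact_mod_cast h1.trans (Nat.mul_le_mul_left _ h2)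
  exact h3.trans (mul_le_mul_of_nonneg_right (Nat.floor_le hc) (by positivity))

theorem tuples_any {α : Type} {X Y G : Set α} (hX : X.Finite) (hY : Y ⊆ X) {κ : ℝ} (hκ : 0 ≤ κ)
    (h3 : (X.ncard : ℝ) ≤ κ * Y.ncard)
    (Bad : α → Set α) {a b : ℝ} (ha : 0 ≤ a) (hb : 0 ≤ b) (hG : ((X \ G).ncard : ℝ) ≤ a * X.ncard)
    (hB : ∀ x ∈ X ∩ G, ((Bad x ∩ X).ncard : ℝ) ≤ b * X.ncard) (r : ℕ) :
    (({t : Fin r → α | (∀ i, t i ∈ Y) ∧ ¬ ((∀ i, t i ∈ G) ∧ ∀ i j, i ≠ j → t j ∉ Bad (t i))}).ncard : ℝ) ≤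
      (κ * r * a + κ * r ^ 2 * b) * (Y.ncard : ℝ) ^ r := by
  classical
  have hYf : Y.Finite := hX.subset hY
  set Z := hYf.toFinset with hZ
  have hZm : ∀ y, y ∈ Z ↔ y ∈ Y := fun y => by rw [hZ, Set.Finite.mem_toFinset]
  have hcard : Y.ncard = Z.card := Set.ncard_eq_toFinset_card Y hYf
  have h3' : (X.ncard : ℝ) ≤ κ * Z.card := by
    rw [hcard] at h3
    exact h3
  have hpow : ∀ (_ : Fin r) (c : ℝ), c * Z.card * (Z.card : ℝ) ^ (r - 1) = c * (Z.card : ℝ) ^ r := by
    intro i c
    have hr : r = (r - 1) + 1 := by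
      have := i.2
      omega
    conv_rhs => rw [hr]
    rw [pow_succ]
    ring
  have hset : {t : Fin r → α | (∀ i, t i ∈ Y) ∧ ¬ ((∀ i, t i ∈ G) ∧ ∀ i j, i ≠ j → t j ∉ Bad (t i))} =
      (((Fintype.piFinset fun _ : Fin r => Z).filter fun t =>
        ¬ ((∀ i, t i ∈ G) ∧ ∀ i j, i ≠ j → t j ∉ Bad (t i)) : Finset (Fin r → α)) :
          Set (Fin r → α)) := by
    ext t
    rw [Finset.mem_coe, Finset.mem_filter, Fintype.mem_piFinset]
    simp only [hZm]
    rfl
  rw [hset, Set.ncard_coe_finset, hcard]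
  have hA : ∀ i : Fin r, (((Fintype.piFinset fun _ : Fin r => Z).filter fun t => t i ∉ G).card : ℝ) ≤
      κ * a * (Z.card : ℝ) ^ r := by
    intro i
    have h4 := R14_cnt Z r i (fun t => t i ∉ G) (κ * a * Z.card) (by positivity) fun t _ _ => by
      have h5 : ((Z.filter fun y => Function.update t i y i ∉ G).card : ℝ) ≤ ((X \ G).ncard : ℝ) := by
        rw [← Set.ncard_coe_finset]
        refine Nat.cast_le.mpr (Set.ncard_le_ncard ?_ (hX.subset Set.sdiff_subset))
        intro y hy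
        obtain ⟨h6, h7⟩ := Finset.mem_filter.mp (Finset.mem_coe.mp hy)
        rw [Function.update_self] at h7
        exact ⟨hY ((hZm y).mp h6), h7⟩
      have h6 : a * X.ncard ≤ a * (κ * Z.card) := mul_le_mul_of_nonneg_left h3' ha
      linarith
    rwa [hpow i] at h4
  have hB' : ∀ i j : Fin r, i ≠ j → (((Fintype.piFinset fun _ : Fin r => Z).filter fun t =>
      t i ∈ G ∧ t j ∈ Bad (t i)).card : ℝ) ≤ κ * b * (Z.card : ℝ) ^ r := by
    intro i j hij
    have h4 := R14_cnt Z r j (fun t => t i ∈ G ∧ t j ∈ Bad (t i)) (κ * b * Z.card) (by positivity)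
      fun t ht hQ => by
        have h5 : ((Z.filter fun y => Function.update t j y i ∈ G ∧
            Function.update t j y j ∈ Bad (Function.update t j y i)).card : ℝ) ≤
            ((Bad (t i) ∩ X).ncard : ℝ) := by
          rw [← Set.ncard_coe_finset]
          refine Nat.cast_le.mpr (Set.ncard_le_ncard ?_ (hX.subset Set.inter_subset_right))
          intro y hy
          obtain ⟨h6, _, h7⟩ := Finset.mem_filter.mp (Finset.mem_coe.mp hy)
          rw [Function.update_self, Function.update_of_ne hij] at h7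
          exact ⟨h7, hY ((hZm y).mp h6)⟩
        have h6 := hB (t i) ⟨hY ((hZm _).mp (ht i)), hQ.1⟩
        have h7 : b * X.ncard ≤ b * (κ * Z.card) := mul_le_mul_of_nonneg_left h3' hb
        linarith
    rwa [hpow i] at h4
  have hsub : ((Fintype.piFinset fun _ : Fin r => Z).filter fun t =>
        ¬ ((∀ i, t i ∈ G) ∧ ∀ i j, i ≠ j → t j ∉ Bad (t i))) ⊆
      (Finset.univ.biUnion fun i : Fin r => (Fintype.piFinset fun _ : Fin r => Z).filter fun t => t i ∉ G) ∪
      ((Finset.univ.filter fun p : Fin r × Fin r => p.1 ≠ p.2).biUnion fun p =>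
        (Fintype.piFinset fun _ : Fin r => Z).filter fun t => t p.1 ∈ G ∧ t p.2 ∈ Bad (t p.1)) := by
    intro t ht
    obtain ⟨h4, h5⟩ := Finset.mem_filter.mp ht
    rw [Finset.mem_union]
    by_cases h6 : ∀ i, t i ∈ G
    · right
      have h7 : ∃ i j, i ≠ j ∧ t j ∈ Bad (t i) := by
        by_contra hcon
        push Not at hcon
        exact h5 ⟨h6, hcon⟩
      obtain ⟨i, j, hij, h8⟩ := h7
      exact Finset.mem_biUnion.mpr ⟨(i, j), Finset.mem_filter.mpr ⟨Finset.mem_univ _, hij⟩,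
        Finset.mem_filter.mpr ⟨h4, h6 i, h8⟩⟩
    · left
      push Not at h6
      obtain ⟨i, hi⟩ := h6
      exact Finset.mem_biUnion.mpr ⟨i, Finset.mem_univ _, Finset.mem_filter.mpr ⟨h4, hi⟩⟩
  have h4 := (Finset.card_le_card hsub).trans ((Finset.card_union_le _ _).trans
    (Nat.add_le_add Finset.card_biUnion_le Finset.card_biUnion_le))
  have h5 : (((Fintype.piFinset fun _ : Fin r => Z).filter fun t =>
        ¬ ((∀ i, t i ∈ G) ∧ ∀ i j, i ≠ j → t j ∉ Bad (t i))).card : ℝ) ≤
      ∑ i : Fin r, (((Fintype.piFinset fun _ : Fin r => Z).filter fun t => t i ∉ G).card : ℝ) +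
      ∑ p ∈ Finset.univ.filter fun p : Fin r × Fin r => p.1 ≠ p.2,
        (((Fintype.piFinset fun _ : Fin r => Z).filter fun t =>
          t p.1 ∈ G ∧ t p.2 ∈ Bad (t p.1)).card : ℝ) := by
    exact_mod_cast h4
  refine h5.trans ?_
  have h6 : ∑ i : Fin r, (((Fintype.piFinset fun _ : Fin r => Z).filter fun t => t i ∉ G).card : ℝ) ≤
      r * (κ * a * (Z.card : ℝ) ^ r) := by
    refine (Finset.sum_le_sum fun i _ => hA i).trans ?_
    rw [Finset.sum_const, Finset.card_univ, Fintype.card_fin, nsmul_eq_mul]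
  have h7 : ∑ p ∈ Finset.univ.filter fun p : Fin r × Fin r => p.1 ≠ p.2,
        (((Fintype.piFinset fun _ : Fin r => Z).filter fun t =>
          t p.1 ∈ G ∧ t p.2 ∈ Bad (t p.1)).card : ℝ) ≤ (r : ℝ) ^ 2 * (κ * b * (Z.card : ℝ) ^ r) := by
    refine (Finset.sum_le_sum fun p hp => hB' p.1 p.2 (Finset.mem_filter.mp hp).2).trans ?_
    rw [Finset.sum_const, nsmul_eq_mul]
    refine mul_le_mul_of_nonneg_right ?_ (by positivity)
    have h8 : (Finset.univ.filter fun p : Fin r × Fin r => p.1 ≠ p.2).card ≤ r ^ 2 := by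
      refine (Finset.card_le_univ _).trans ?_
      rw [Fintype.card_prod, Fintype.card_fin, sq]
    exact_mod_cast h8
  refine (add_le_add h6 h7).trans (le_of_eq ?_)
  ring

end TR
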