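import Pool.Agent.Lib.MP_021685_agTR.R11
import Pool.Agent.Lib.MP_021685_agTR.R12
import Pool.Agent.Lib.MP_021685_agTQ.A16

/-! LEAF R13 (easy+).  The tuples.

PROOF.  Copy of the proved file `MP_021685_agTQ/A16.lean` (`good_tuples_unif`) with `TR.main_count` (`a = C₁ log g/g`) and `TR.mod_count` (`b = C₂/g²`) instead of `TQ.main_count`, `TQ.mod_count`.  The numerical step (`A16_num`): `r (3 a) + r² (3 b) ≤ (3 C₁ + 3 C₂ + 1) r log g/g` if `r ≤ g` (`r²/g² ≤ r/g ≤ r log g/g`, `log g ≥ 1` for `g ≥ 3`),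
and for `r > g` the right side is `≥ 1`, so the claim is trivial (`A16_card`). -/

namespace TR

open Polynomial TI TJ TQ

private theorem R13_card {Y : Set ℤ[X]} (hY : Y.Finite) (r : ℕ) (S : Set (Fin r → ℤ[X])) (hS : S ⊆ {t | ∀ i, t i ∈ Y}) :
    (S.ncard : ℝ) ≤ (Y.ncard : ℝ) ^ r := by
  classical
  have h1 : {t : Fin r → ℤ[X] | ∀ i, t i ∈ Y} = ↑(Fintype.piFinset fun _ : Fin r => hY.toFinset) := by
    ext t
    simp
  have h2 : ({t : Fin r → ℤ[X] | ∀ i, t i ∈ Y} : Set (Fin r → ℤ[X])).ncard = Y.ncard ^ r := by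
    rw [h1, Set.ncard_coe_finset, Fintype.card_piFinset]
    simp [Set.ncard_eq_toFinset_card Y hY]
  have hf : ({t : Fin r → ℤ[X] | ∀ i, t i ∈ Y} : Set (Fin r → ℤ[X])).Finite := by
    rw [h1]
    exact Finset.finite_toSet _
  have h3 := Set.ncard_le_ncard hS hf
  rw [h2] at h3
  exact_mod_cast h3

private theorem R13_num {g r : ℕ} (hg : 3 ≤ g) {a b : ℝ} (ha : 0 ≤ a) (hb : 0 ≤ b) :
    r * (a * Real.log g / g) + r ^ 2 * (b / (g : ℝ) ^ 2) ≤ (a + b + 1) * r * Real.log g / g ∨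
      1 ≤ (a + b + 1) * r * Real.log g / g := by
  have hg0 : (0 : ℝ) < g := by exact_mod_cast (by omega : 0 < g)
  have hg3 : (3 : ℝ) ≤ g := by exact_mod_cast hg
  have hlog : 1 ≤ Real.log g := by
    rw [Real.le_log_iff_exp_le hg0]
    linarith [Real.exp_one_lt_d9]
  rcases le_or_gt (r : ℝ) g with h | h
  · left
    have h1 : (r : ℝ) ^ 2 * (b / (g : ℝ) ^ 2) ≤ b * r * Real.log g / g := by
      rw [mul_div_assoc', div_le_div_iff₀ (by positivity) hg0]
      have h3 : (0 : ℝ) ≤ b * r := by positivity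
      have h4 : (r : ℝ) ≤ g * Real.log g := h.trans (le_mul_of_one_le_right hg0.le hlog)
      have h5 := mul_le_mul_of_nonneg_left h4 (mul_nonneg h3 hg0.le)
      calc (r : ℝ) ^ 2 * b * g = b * r * g * r := by ring
        _ ≤ b * r * g * (g * Real.log g) := h5
        _ = b * r * Real.log g * (g : ℝ) ^ 2 := by ring
    have h2 : (0 : ℝ) ≤ r * Real.log g / g := by positivity
    have h3 : (a + b + 1) * r * Real.log g / g =
        r * (a * Real.log g / g) + b * r * Real.log g / g + r * Real.log g / g := by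
      ring
    rw [h3]
    linarith
  · right
    rw [le_div_iff₀ hg0, one_mul]
    have h1 : (r : ℝ) ≤ (a + b + 1) * r := by
      have : (0 : ℝ) ≤ (a + b) * r := by positivity
      linarith
    have h2 : (a + b + 1) * r ≤ (a + b + 1) * r * Real.log g :=
      le_mul_of_one_le_right (by positivity) hlog
    linarith

theorem good_tuples (q : ℕ) (hq : 2 ≤ q) (p : ℕ) (hp : 2 ≤ p) : ∃ C : ℝ, ∃ g₀ : ℕ, 3 ≤ g₀ ∧
    ∀ g : ℕ, g₀ ≤ g → ∀ Y : Set ℤ[X], {h | h ∈ Weil q g ∧ ¬ (p : ℤ) ∣ h.coeff 0} ⊆ Y → Y ⊆ Weil q g →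
      Y.Finite ∧ Y.Nonempty ∧ ∀ r : ℕ,
        (({t : Fin r → ℤ[X] | (∀ i, t i ∈ Y) ∧ ¬ GoodT q g t}).ncard : ℝ) ≤
          C * r * Real.log g / g * (Y.ncard : ℝ) ^ r := by
  obtain ⟨C₁, hC₁, g₁, hg₁, H₁⟩ := TR.main_count q hq
  obtain ⟨C₂, hC₂, g₂, hg₂, H₂⟩ := TR.mod_count q hq
  obtain ⟨g₃, hg₃, H₃⟩ := TQ.ord_count q hq p hp
  refine ⟨3 * C₁ + 3 * C₂ + 1, max g₁ (max g₂ g₃), hg₁.trans (le_max_left _ _), ?_⟩
  intro g hg Y hY1 hY2
  have hgg₁ : g₁ ≤ g := (le_max_left _ _).trans hg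
  have hgg₂ : g₂ ≤ g := ((le_max_left _ _).trans (le_max_right _ _)).trans hg
  have hgg₃ : g₃ ≤ g := ((le_max_right _ _).trans (le_max_right _ _)).trans hg
  have hg3 : 3 ≤ g := hg₁.trans hgg₁
  have hX := Weil_finite q g
  have hYf : Y.Finite := hX.subset hY2
  have h3 : (Weil q g).ncard ≤ 3 * Y.ncard :=
    (H₃ g hgg₃).trans (Nat.mul_le_mul_left 3 (Set.ncard_le_ncard hY1 hYf))
  have hpos : 0 < (Weil q g).ncard := by
    have h1 := TI.Weil_card_ge (q := q) (g := g) (by omega) (by omega)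
    have hqs : 0 < Real.sqrt q := Real.sqrt_pos.2 (by exact_mod_cast (by omega : 0 < q))
    have hgs : 0 < Real.sqrt g := Real.sqrt_pos.2 (by exact_mod_cast (by omega : 0 < g))
    have h2 : 0 < Real.sqrt q ^ (g * (g + 1) / 2) * (2 * Real.sqrt 2 / Real.sqrt g) ^ g := by positivity
    by_contra h4
    have h5 : (Weil q g).ncard = 0 := by omega
    rw [h5] at h1
    simp at h1
    linarith
  have hYc : 0 < Y.ncard := by omega
  have hYne : Y.Nonempty := (Set.ncard_pos hYf).1 hYc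
  refine ⟨hYf, hYne, fun r => ?_⟩
  have hlog : 0 < Real.log g := Real.log_pos (by exact_mod_cast (by omega : 1 < g))
  have hlogle : Real.log g ≤ g := (Real.log_le_self (by positivity))
  classical
  have hch : ∀ h : ℤ[X], ∃ l : ℕ, GoodRJ q g h → (l ∈ PgJ q g ∧ (l : ℤ) ∣ resq q h ∧ ¬ (l : ℤ) ^ 2 ∣ resq q h ∧
      (h.map (Int.castRingHom (ZMod l))).Separable) := by
    intro h
    by_cases hh : GoodRJ q g h
    · obtain ⟨l, h1, h2⟩ := hh
      exact ⟨l, fun _ => ⟨h1, h2⟩⟩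
    · exact ⟨0, fun h' => absurd h' hh⟩
  choose ℓ hℓ using hch
  have ht := tuples (X := Weil q g) (Y := Y) (G := {h | Irreducible h ∧ GoodRJ q g h}) hX hY2 h3
    (fun h => {h' | (ℓ h : ℤ) ∣ resq q h' ∨ ¬ (h'.map (Int.castRingHom (ZMod (ℓ h)))).Separable})
    (a := C₁ * Real.log g / g) (b := C₂ / (g : ℝ) ^ 2) (by positivity) (by positivity) ?_ ?_ r
  · have hcase := R13_num (r := r) hg3 (a := 3 * C₁) (b := 3 * C₂) (by positivity) (by positivity)
    rcases hcase with hcase | hcase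
    swap
    · refine (R13_card hYf r _ fun t ht => ht.1).trans ?_
      have : (0 : ℝ) ≤ (Y.ncard : ℝ) ^ r := by positivity
      nlinarith
    refine le_trans ?_ (ht.trans ?_)
    · have hsub : {t : Fin r → ℤ[X] | (∀ i, t i ∈ Y) ∧ ¬ GoodT q g t} ⊆
          {t : Fin r → ℤ[X] | (∀ i, t i ∈ Y) ∧ ¬ ((∀ i, t i ∈ {h | Irreducible h ∧ GoodRJ q g h}) ∧
            ∀ i j, i ≠ j → t j ∉ {h' | (ℓ (t i) : ℤ) ∣ resq q h' ∨
              ¬ (h'.map (Int.castRingHom (ZMod (ℓ (t i))))).Separable})} := by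
        rintro t ⟨hty, hg⟩
        refine ⟨hty, ?_⟩
        rintro ⟨hG, hB⟩
        apply hg
        have hPg : ∀ i, (ℓ (t i)).Prime ∧ g ^ 3 < ℓ (t i) ∧ Odd (ℓ (t i)) ∧ ¬ ℓ (t i) ∣ q ∧
            IsSquare ((q : ℕ) : ZMod (ℓ (t i))) := by
          intro i
          have h1 := (hℓ (t i) (hG i).2).1
          unfold PgJ at h1
          exact (Finset.mem_filter.1 h1).2
        refine ⟨fun i => hY2 (hty i), fun i => (hG i).1, fun i => ℓ (t i), fun i => (hPg i).1,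
          fun i => (hPg i).2.1, fun i => (hPg i).2.2.2.1, fun i => (hℓ (t i) (hG i).2).2.1,
          fun i => (hℓ (t i) (hG i).2).2.2.1, ?_, ?_⟩
        · intro i j
          by_cases hij : i = j
          · rw [← hij]
            exact (hℓ (t i) (hG i).2).2.2.2
          · have h1 := hB i j hij
            simp only [Set.mem_ofPred_eq, not_or, not_not] at h1
            exact h1.2
        · intro i j hij
          have h1 := hB i j (Ne.symm hij)
          simp only [Set.mem_ofPred_eq, not_or, not_not] at h1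
          exact h1.1
      have hfin : {t : Fin r → ℤ[X] | (∀ i, t i ∈ Y) ∧ ¬ ((∀ i, t i ∈ {h | Irreducible h ∧ GoodRJ q g h}) ∧
            ∀ i j, i ≠ j → t j ∉ {h' | (ℓ (t i) : ℤ) ∣ resq q h' ∨
              ¬ (h'.map (Int.castRingHom (ZMod (ℓ (t i))))).Separable})}.Finite := by
        apply Set.Finite.subset (Set.Finite.pi' (fun _ : Fin r => hYf))
        rintro t ⟨hty, -⟩
        exact hty
      exact_mod_cast Set.ncard_le_ncard hsub hfin
    · refine mul_le_mul_of_nonneg_right (le_trans (le_of_eq ?_) hcase) (by positivity)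
      ring
  · have h1 := H₁ g hgg₁
    exact h1
  · rintro x ⟨hx1, hx2⟩
    have h1 := H₂ g hgg₂ (ℓ x) (hℓ x hx2.2).1
    have h2 : ({h' | (ℓ x : ℤ) ∣ resq q h' ∨ ¬ (h'.map (Int.castRingHom (ZMod (ℓ x)))).Separable} ∩ Weil q g :
        Set ℤ[X]) = {h | h ∈ Weil q g ∧ ((ℓ x : ℤ) ∣ resq q h ∨
          ¬ (h.map (Int.castRingHom (ZMod (ℓ x)))).Separable)} := by
      ext h
      constructor
      · rintro ⟨h1, h2⟩
        exact ⟨h2, h1⟩
      · rintro ⟨h1, h2⟩
        exact ⟨h2, h1⟩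
    show ((({h' | (ℓ x : ℤ) ∣ resq q h' ∨ ¬ (h'.map (Int.castRingHom (ZMod (ℓ x)))).Separable} ∩ Weil q g :
        Set ℤ[X])).ncard : ℝ) ≤ _
    rw [h2]
    exact h1

end TR
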