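import Pool.Agent.Lib.MP_021685_agTR.RD
import Pool.Agent.Lib.MP_1ad228_ntR.RC5

/-! LEAF R1 (easy+, 2 theorems).  Mertens' first theorem for the primes of the sieve, on intervals.

PROOF.  Model: the private theorems of `MP_021685_agTI/D1.lean` (`D1_upper`, `D1_lower_sq`, `D1_lower_nsq`; copy them, they are private).  Write `λ(x) = ∑_{ℓ ∈ WP q 0 x} log ℓ/ℓ`; `∑_{ℓ ∈ WP q a b} log ℓ/ℓ = λ(b) - λ(a)` (`WP_split` with `0, a, b`).
(`mert_low`) If `q` is a square: `λ(x) ≥ log x - C` (as in `D1_lower_sq`, keep `log x` instead of `log x/2`) and `λ(x) ≤ log x + C` (`D1_upper`), so `λ(b) - λ(a) ≥ (log b - log a) - 2C ≥ 1/2 (log b - log a) - 2C` (`log a ≤ log b`).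
If `q` is not a square: `ZR.mert_class {q} _ (fun _ => 1) _` is two-sided: `|∑_{p ≤ x, χ(p) = 1} log p/p - log x/2| ≤ C`, and the set of the `p ≤ x` with `χ(p) = 1` (`QT.chi (q : ℤ) p = 1`: `p` odd and `jacobiSym q p = 1`) is equal to `WP q 0 x` (`D1_lower_nsq` proves one inclusion;
the other: for `ℓ ∈ WP q 0 x` the Legendre symbol is `1` by `legendreSym.eq_one_iff`, `legendreSym` = `jacobiSym` by `jacobiSym.legendreSym.to_jacobiSym`).  So `λ(b) - λ(a) ≥ 1/2 (log b - log a) - 2C`.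
(`mert_up`) `WP q a b` is contained in the set of the primes in `(a, b]`, and `∑_{a < p ≤ b} log p/p ≤ log b - log a + 2C` by `ZR.mert_prime` at `b` and at `a`. -/

namespace TR

private theorem R1_nonneg (p : ℕ) : 0 ≤ Real.log p / p :=
  div_nonneg (Real.log_natCast_nonneg p) (Nat.cast_nonneg p)

private theorem R1_upper (q : ℕ) : ∃ C : ℝ, ∀ x : ℕ, 1 ≤ x →
    ∑ ℓ ∈ WP q 0 x, Real.log ℓ / ℓ ≤ Real.log x + C := by
  obtain ⟨C, hC⟩ := ZR.mert_prime
  refine ⟨C, fun x hx => ?_⟩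
  have h1 : ∑ ℓ ∈ WP q 0 x, Real.log ℓ / ℓ ≤
      ∑ p ∈ (Finset.Icc 1 x).filter Nat.Prime, Real.log p / p := by
    refine Finset.sum_le_sum_of_subset_of_nonneg ?_ fun p _ _ => R1_nonneg p
    intro ℓ h
    rw [mem_WP] at h
    rw [Finset.mem_filter, Finset.mem_Icc]
    exact ⟨⟨h.1.1.one_le, h.2.2⟩, h.1.1⟩
  have h2 := abs_le.1 (hC x hx)
  linarith [h2.2]

private theorem R1_lower_sq (q : ℕ) (hq : 1 ≤ q) (hs : IsSquare q) : ∃ C : ℝ, ∀ x : ℕ, 1 ≤ x →
    Real.log x - C ≤ ∑ ℓ ∈ WP q 0 x, Real.log ℓ / ℓ := by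
  obtain ⟨C, hC⟩ := ZR.mert_prime
  refine ⟨C + ∑ p ∈ (2 * q).primeFactors, Real.log p / p, fun x hx => ?_⟩
  have h1 : ∑ p ∈ (Finset.Icc 1 x).filter Nat.Prime, Real.log p / p ≤
      ∑ ℓ ∈ WP q 0 x, Real.log ℓ / ℓ + ∑ p ∈ (2 * q).primeFactors, Real.log p / p := by
    have h2 : (Finset.Icc 1 x).filter Nat.Prime ⊆ WP q 0 x ∪ (2 * q).primeFactors := by
      intro p hp
      rw [Finset.mem_filter, Finset.mem_Icc] at hp
      rw [Finset.mem_union, mem_WP, Nat.mem_primeFactors]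
      by_cases hd : p ∣ 2 * q
      · exact Or.inr ⟨hp.2, hd, by omega⟩
      · refine Or.inl ⟨⟨hp.2, ?_, fun h => hd (h.mul_left 2), ?_⟩, hp.2.pos, hp.1.2⟩
        · rw [← Nat.not_even_iff_odd]
          intro he
          have h3 : p = 2 := (hp.2.even_iff).1 he
          exact hd (h3 ▸ dvd_mul_right 2 q)
        · obtain ⟨r, hr⟩ := hs
          exact ⟨(r : ZMod p), by rw [hr]; push_cast; rfl⟩
    refine (Finset.sum_le_sum_of_subset_of_nonneg h2 fun p _ _ => R1_nonneg p).trans ?_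
    rw [← Finset.sum_union_inter]
    have h4 : 0 ≤ ∑ p ∈ WP q 0 x ∩ (2 * q).primeFactors, Real.log p / p :=
      Finset.sum_nonneg fun p _ => R1_nonneg p
    linarith
  have h2 := abs_le.1 (hC x hx)
  linarith [h2.1]

private theorem R1_nsq (q : ℕ) (hs : ¬ IsSquare q) : ∃ C : ℝ, ∀ x : ℕ, 1 ≤ x →
    |∑ ℓ ∈ WP q 0 x, Real.log ℓ / ℓ - 1 / 2 * Real.log x| ≤ C := by
  classical
  have hE : ∀ S ⊆ ({(q : ℤ)} : Finset ℤ), S.Nonempty → ¬ IsSquare (∏ e ∈ S, e) := by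
    intro S hS hS'
    have h1 : S = {(q : ℤ)} := (Finset.subset_singleton_iff.1 hS).resolve_left hS'.ne_empty
    rw [h1, Finset.prod_singleton, Int.isSquare_natCast_iff]
    exact hs
  obtain ⟨C, hC⟩ := ZR.mert_class {(q : ℤ)} hE (fun _ => 1) (fun _ _ => Or.inl rfl)
  refine ⟨C, fun x hx => ?_⟩
  have h2 := abs_le.1 (hC x hx)
  rw [Finset.card_singleton, pow_one] at h2
  have hset : (Finset.Icc 1 x).filter
      (fun p => p.Prime ∧ ∀ e ∈ ({(q : ℤ)} : Finset ℤ), QT.chi e p = 1) = WP q 0 x := by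
    ext p
    rw [Finset.mem_filter, Finset.mem_Icc, mem_WP]
    constructor
    · rintro ⟨⟨_, hpx⟩, hpp, hchi⟩
      have h3 := hchi q (Finset.mem_singleton_self _)
      unfold QT.chi at h3
      have hodd : Odd p := by
        by_contra h
        rw [if_neg h] at h3
        exact zero_ne_one h3
      rw [if_pos hodd] at h3
      have : Fact p.Prime := ⟨hpp⟩
      have h4 : legendreSym p (q : ℤ) = 1 := by
        rw [jacobiSym.legendreSym.to_jacobiSym]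
        exact_mod_cast h3
      have h5 : (((q : ℤ)) : ZMod p) ≠ 0 := by
        intro h
        rw [(legendreSym.eq_zero_iff p (q : ℤ)).2 h] at h4
        exact zero_ne_one h4
      have h6 := (legendreSym.eq_one_iff p h5).1 h4
      rw [Int.cast_natCast] at h5 h6
      exact ⟨⟨hpp, hodd, fun h => h5 ((ZMod.natCast_eq_zero_iff q p).2 h), h6⟩, hpp.pos, hpx⟩
    · rintro ⟨⟨hpp, hodd, hd, hsq⟩, _, hpx⟩
      refine ⟨⟨hpp.one_le, hpx⟩, hpp, fun e he => ?_⟩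
      rw [Finset.mem_singleton] at he
      subst he
      have : Fact p.Prime := ⟨hpp⟩
      have h5 : (((q : ℤ)) : ZMod p) ≠ 0 := by
        rw [Int.cast_natCast]
        exact fun h => hd ((ZMod.natCast_eq_zero_iff q p).1 h)
      have h4 : legendreSym p (q : ℤ) = 1 := by
        rw [legendreSym.eq_one_iff p h5, Int.cast_natCast]
        exact hsq
      rw [jacobiSym.legendreSym.to_jacobiSym] at h4
      unfold QT.chi
      rw [if_pos hodd]
      exact_mod_cast h4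
  rw [hset] at h2
  rw [abs_le]
  constructor
  · linarith [h2.1]
  · linarith [h2.2]

private theorem R1_two (q : ℕ) (hq : 1 ≤ q) : ∃ (θ C : ℝ), 1 / 2 ≤ θ ∧ 0 ≤ C ∧ ∀ x : ℕ, 1 ≤ x →
    |∑ ℓ ∈ WP q 0 x, Real.log ℓ / ℓ - θ * Real.log x| ≤ C := by
  by_cases hs : IsSquare q
  · obtain ⟨C1, h1⟩ := R1_upper q
    obtain ⟨C2, h2⟩ := R1_lower_sq q hq hs
    refine ⟨1, max (max C1 C2) 0, by norm_num, le_max_right _ _, fun x hx => ?_⟩
    have h3 := h1 x hx
    have h4 := h2 x hx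
    have h5 : C1 ≤ max (max C1 C2) 0 := (le_max_left _ _).trans (le_max_left _ _)
    have h6 : C2 ≤ max (max C1 C2) 0 := (le_max_right _ _).trans (le_max_left _ _)
    rw [abs_le]
    constructor
    · linarith
    · linarith
  · obtain ⟨C, h1⟩ := R1_nsq q hs
    exact ⟨1 / 2, C, le_rfl, (abs_nonneg _).trans (h1 1 le_rfl), h1⟩

theorem mert_low (q : ℕ) (hq : 1 ≤ q) : ∃ C : ℝ, 0 ≤ C ∧ ∀ a b : ℕ, 1 ≤ a → a ≤ b →
    1 / 2 * (Real.log b - Real.log a) - C ≤ ∑ ℓ ∈ WP q a b, Real.log ℓ / ℓ := by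
  obtain ⟨θ, C, hθ, hC, h⟩ := R1_two q hq
  refine ⟨2 * C, by linarith, fun a b ha hab => ?_⟩
  have h1 := abs_le.1 (h a ha)
  have h2 := abs_le.1 (h b (ha.trans hab))
  rw [WP_split (Nat.zero_le a) hab] at h2
  have h3 : Real.log a ≤ Real.log b := Real.log_le_log (by exact_mod_cast ha) (by exact_mod_cast hab)
  have h4 : 1 / 2 * (Real.log b - Real.log a) ≤ θ * (Real.log b - Real.log a) :=
    mul_le_mul_of_nonneg_right hθ (by linarith)
  linarith [h1.1, h1.2, h2.1, h2.2]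

theorem mert_up (q : ℕ) : ∃ C : ℝ, 0 ≤ C ∧ ∀ a b : ℕ, 1 ≤ a → a ≤ b →
    ∑ ℓ ∈ WP q a b, Real.log ℓ / ℓ ≤ Real.log b - Real.log a + C := by
  obtain ⟨C, hC⟩ := ZR.mert_prime
  have hC0 : 0 ≤ C := (abs_nonneg _).trans (hC 1 le_rfl)
  refine ⟨2 * C, by linarith, fun a b ha hab => ?_⟩
  have h1 := abs_le.1 (hC a ha)
  have h2 := abs_le.1 (hC b (ha.trans hab))
  have hsub : (Finset.Icc 1 a).filter Nat.Prime ⊆ (Finset.Icc 1 b).filter Nat.Prime := by
    intro p hp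
    rw [Finset.mem_filter, Finset.mem_Icc] at hp ⊢
    exact ⟨⟨hp.1.1, hp.1.2.trans hab⟩, hp.2⟩
  have h3 := Finset.sum_sdiff (f := fun p : ℕ => Real.log p / p) hsub
  have h4 : ∑ ℓ ∈ WP q a b, Real.log ℓ / ℓ ≤
      ∑ p ∈ (Finset.Icc 1 b).filter Nat.Prime \ (Finset.Icc 1 a).filter Nat.Prime, Real.log p / p := by
    refine Finset.sum_le_sum_of_subset_of_nonneg ?_ fun p _ _ => R1_nonneg p
    intro p hp
    rw [mem_WP] at hp
    rw [Finset.mem_sdiff, Finset.mem_filter, Finset.mem_filter, Finset.mem_Icc, Finset.mem_Icc]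
    refine ⟨⟨⟨hp.1.1.one_le, hp.2.2⟩, hp.1.1⟩, fun h => ?_⟩
    have h5 := h.1.2
    have h6 := hp.2.1
    omega
  linarith [h1.1, h1.2, h2.1, h2.2]

end TR
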