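import Pool.Agent.Lib.MP_021685_agTR.R9
import Pool.Agent.Lib.MP_021685_agTI.L1
import Pool.Agent.Lib.MP_021685_agTI.E3

/-! LEAF R10 (easy+).  The sieve on one line.

PROOF.  Copy of the proved file `MP_021685_agTJ/JL3.lean` with `brun` instead of `turan`: `K` from `excluded q`, then `C`, `g₁` from `brun q hq K`; `D = 4 q B²`, `A = evA q h₁`; the hypothesis of `brun` on `PgJ q g \ Z` is the part `hP'` of `JL3`.  No lower bound for the sum of `1/ℓ` is needed. -/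

namespace TR

open Polynomial TI TJ

private theorem R10_mem {p : ℤ → Prop} {d : DecidablePred p} {s : Finset ℤ} {c : ℤ} :
    c ∈ @Finset.filter ℤ p d s ↔ c ∈ s ∧ p c := Finset.mem_filter

theorem line_sieve (q : ℕ) (hq : 1 ≤ q) : ∃ C : ℝ, 0 ≤ C ∧ ∃ g₀ : ℕ, 3 ≤ g₀ ∧ ∀ g : ℕ, g₀ ≤ g →
    ∀ h₀ ∈ Weil q g, OKline q h₀ →
      (({h | h ∈ Strict q g ∧ pre g (g - 1) h = pre g (g - 1) h₀ ∧ ¬ GoodRJ q g h} : Set ℤ[X]).ncard : ℝ) ≤
        C * Real.log g / g *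
          (({h | h ∈ Strict q g ∧ pre g (g - 1) h = pre g (g - 1) h₀} : Set ℤ[X]).ncard : ℝ) +
            (1001 / 1000) ^ (4 * g) := by
  classical
  obtain ⟨K, hK0, hK⟩ := excluded q hq
  obtain ⟨CB, hC0, g₁, hg₁, hbrun⟩ := brun q hq K hK0
  refine ⟨CB, hC0, g₁, hg₁, ?_⟩
  intro g hg h₀ h0 hOK
  have hg2 : 2 ≤ g := by omega
  obtain ⟨Z, hZ, hZ'⟩ := hK g hg2 h₀ h0 hOK
  set h₁ : ℤ[X] := h₀ - C (h₀.coeff 0) with hh₁
  have hd1 : h₁.natDegree = g := by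
    rw [hh₁, natDegree_sub_C]
    exact h0.2.1
  have hn1 : 1 ≤ h₁.natDegree := by omega
  have hback : h₀ = h₁ + C (h₀.coeff 0) := by rw [hh₁]; ring
  have hB : evB q h₀ = evB q h₁ := by
    conv_lhs => rw [hback]
    exact (ev_add_C q h₁ hn1 _).2
  set A : ℤ := evA q h₁ with hA
  set B : ℤ := evB q h₀ with hBdef
  have hres : ∀ c : ℤ, resq q (h₁ + C c) = (c + A) ^ 2 - 4 * (q : ℤ) * B ^ 2 := by
    intro c
    obtain ⟨h1, h2⟩ := ev_add_C q h₁ hn1 c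
    unfold resq
    rw [h1, h2, hB]
  have hP' : ∀ ℓ ∈ PgJ q g \ Z, ℓ.Prime ∧ ¬ (ℓ : ℤ) ∣ 4 * (q : ℤ) * B ^ 2 ∧
      IsSquare ((4 * (q : ℤ) * B ^ 2 : ℤ) : ZMod ℓ) := by
    intro ℓ hℓ
    obtain ⟨hℓ1, hℓ2⟩ := Finset.mem_sdiff.1 hℓ
    unfold PgJ at hℓ1
    obtain ⟨h1, hpr, hg3, hodd, hlq, hsq⟩ := Finset.mem_filter.1 hℓ1
    refine ⟨hpr, ?_, ?_⟩
    · intro hdvd
      have hprZ : Prime (ℓ : ℤ) := Nat.prime_iff_prime_int.1 hpr
      rcases hprZ.dvd_or_dvd hdvd with h2 | h2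
      · rcases hprZ.dvd_or_dvd h2 with h3 | h3
        · have h4 : ℓ ∣ 2 ^ 2 := by
            have : (ℓ : ℤ) ∣ ((2 ^ 2 : ℕ) : ℤ) := by simpa using h3
            exact_mod_cast this
          have h5 := hpr.dvd_of_dvd_pow h4
          have h6 := (Nat.prime_dvd_prime_iff_eq hpr Nat.prime_two).1 h5
          rw [h6] at hodd
          exact absurd hodd (by decide)
        · exact hlq (by exact_mod_cast h3)
      · exact (hZ' ℓ hpr hℓ2).1 (hprZ.dvd_of_dvd_pow h2)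
    · obtain ⟨r, hr⟩ := hsq
      refine ⟨r * 2 * (B : ZMod ℓ), ?_⟩
      push_cast
      rw [hr]
      ring
  obtain ⟨lo, hi, H⟩ := line_card (by omega : 1 ≤ g) h0
  classical
  have hT := hbrun g hg Z hZ A (4 * (q : ℤ) * B ^ 2) (fun ℓ hℓ => ⟨(hP' ℓ hℓ).2.1, (hP' ℓ hℓ).2.2⟩) lo hi
  have hH1 := H (fun h => ¬ GoodRJ q g h)
  have hH2 := H (fun _ => True)
  have hset : ({h | h ∈ Strict q g ∧ pre g (g - 1) h = pre g (g - 1) h₀ ∧ True} : Set ℤ[X]) =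
      {h | h ∈ Strict q g ∧ pre g (g - 1) h = pre g (g - 1) h₀} := by
    ext h
    constructor
    · rintro ⟨h1, h2, -⟩
      exact ⟨h1, h2⟩
    · rintro ⟨h1, h2⟩
      exact ⟨h1, h2, trivial⟩
  rw [hset, Finset.filter_true] at hH2
  rw [hH2, hH1]
  refine (Nat.cast_le.2 (Finset.card_le_card ?_)).trans hT
  intro c hc
  obtain ⟨hc1, hc2⟩ := R10_mem.1 hc
  refine R10_mem.2 ⟨hc1, fun ℓ hℓ hEx => hc2 ?_⟩
  obtain ⟨hℓ1, hℓ2⟩ := Finset.mem_sdiff.1 hℓ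
  have hpr := (hP' ℓ hℓ).1
  obtain ⟨he1, he2⟩ := hEx
  have hres' := hres c
  refine ⟨ℓ, hℓ1, ?_, ?_, ?_⟩
  · rw [hres']; exact he1
  · rw [hres']; exact he2
  · have h3 : h₁ + C c = h₀ + C (c - h₀.coeff 0) := by
      rw [hh₁, C_sub]
      ring
    have h4 := (hZ' ℓ hpr hℓ2).2 (c - h₀.coeff 0) (by rw [← h3, hres']; exact he1)
    rw [← h3] at h4
    exact h4

end TR
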