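import Pool.Agent.Lib.MP_021685_agTQ.A13
import Pool.Agent.Lib.MP_021685_agTR.R10

/-! LEAF R11 (easy+).  Almost all members are irreducible and good.

PROOF.  Copy of the proved file `MP_021685_agTQ/A13.lean` (`main_count`) with `TR.line_sieve` instead of `TJ.line_sieve`: `a = C log g/g + 1/g²` in the `fiber_principle` (`(1001/1000)^(4g) = Lam g/g² ≤ LN/g²`).  All of `1/g²`, `1/g`, `(99/100)^g` are `≤ const * log g/g` for `g ≥ 3` (`log g ≥ 1`;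
`(99/100)^g ≤ 99/g` by Bernoulli, see `A13_log`). -/

namespace TR

open Polynomial TI TJ TQ

private theorem R11_log {g : ℕ} (hg : 3 ≤ g) : 1 ≤ Real.log g ∧ 1 / (g : ℝ) ^ 2 ≤ Real.log g / g ∧
    1 / (g : ℝ) ≤ Real.log g / g ∧ ((99 : ℝ) / 100) ^ g ≤ 99 * (Real.log g / g) := by
  have hg3 : (3 : ℝ) ≤ (g : ℝ) := by exact_mod_cast hg
  have hg0 : (0 : ℝ) < (g : ℝ) := by linarith
  have hlog : 1 ≤ Real.log g := by
    rw [Real.le_log_iff_exp_le hg0]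
    linarith [Real.exp_one_lt_d9]
  have hgg : (g : ℝ) ≤ (g : ℝ) ^ 2 := by nlinarith
  have h10 : 1 / (g : ℝ) ≤ Real.log g / g := div_le_div_of_nonneg_right hlog hg0.le
  refine ⟨hlog, (one_div_le_one_div_of_le hg0 hgg).trans h10, h10, ?_⟩
  have h1 : 1 + (g : ℝ) * (1 / 99) ≤ (1 + 1 / 99 : ℝ) ^ g :=
    one_add_mul_le_pow (by norm_num) g
  have h2 : ((99 : ℝ) / 100) ^ g * (1 + 1 / 99 : ℝ) ^ g = 1 := by
    rw [← mul_pow]; norm_num
  have h3 : 0 < ((99 : ℝ) / 100) ^ g := by positivity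
  have h4 : ((99 : ℝ) / 100) ^ g * ((g : ℝ) * (1 / 99)) ≤ 1 := by
    calc ((99 : ℝ) / 100) ^ g * ((g : ℝ) * (1 / 99))
        ≤ ((99 : ℝ) / 100) ^ g * (1 + 1 / 99 : ℝ) ^ g := by
          apply mul_le_mul_of_nonneg_left _ h3.le
          linarith
      _ = 1 := h2
  have h5 : ((99 : ℝ) / 100) ^ g ≤ 99 * (1 / (g : ℝ)) := by
    rw [mul_one_div, le_div_iff₀ hg0]
    linarith
  exact h5.trans (mul_le_mul_of_nonneg_left h10 (by norm_num))

theorem main_count (q : ℕ) (hq : 2 ≤ q) : ∃ C : ℝ, 0 ≤ C ∧ ∃ g₀ : ℕ, 3 ≤ g₀ ∧ ∀ g : ℕ, g₀ ≤ g →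
    (({h | h ∈ Weil q g ∧ ¬ (Irreducible h ∧ GoodRJ q g h)} : Set ℤ[X]).ncard : ℝ) ≤
      C * Real.log g / g * ((Weil q g).ncard : ℝ) := by
  obtain ⟨c, hc, g₁, hg₁, hsieve⟩ := TR.line_sieve q (by omega)
  obtain ⟨CR, hCR, g₂, hg₂, hred⟩ := reducible_count q hq
  obtain ⟨g₃, hshort⟩ := short_count q hq
  have hsq : 0 ≤ Real.sqrt q := Real.sqrt_nonneg _
  refine ⟨2 * CR + 2 * 99 + 256 * Real.sqrt q + c + 1, by positivity, max (max g₁ g₂) (max g₃ 3),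
    le_trans (le_max_right _ _) (le_max_right _ _), ?_⟩
  intro g hg
  have hg1 : g₁ ≤ g := le_trans (le_trans (le_max_left _ _) (le_max_left _ _)) hg
  have hg2 : g₂ ≤ g := le_trans (le_trans (le_max_right _ _) (le_max_left _ _)) hg
  have hg3 : g₃ ≤ g := le_trans (le_trans (le_max_left _ _) (le_max_right _ _)) hg
  have hg4 : 3 ≤ g := le_trans (le_trans (le_max_right _ _) (le_max_right _ _)) hg
  have hgR : (3 : ℝ) ≤ (g : ℝ) := by exact_mod_cast hg4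
  have hg0 : (0 : ℝ) < (g : ℝ) := by linarith
  obtain ⟨hlog, hl2, hl1, hlp⟩ := R11_log hg4
  set lgg : ℝ := Real.log g / g with hlgd
  have hlg0 : 0 ≤ lgg := by
    rw [hlgd]
    positivity
  have hclg : c * Real.log g / g = c * lgg := by rw [hlgd]; ring
  have hfin : (Weil q g).Finite := Weil_finite q g
  have hN0 : (0 : ℝ) ≤ ((Weil q g).ncard : ℝ) := Nat.cast_nonneg _
  have hpw : (1 : ℝ) ≤ (1001 / 1000 : ℝ) ^ (4 * g) := one_le_pow₀ (by norm_num)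
  have hLam : (g : ℝ) ^ 2 ≤ Lam g := by
    unfold Lam
    nlinarith [sq_nonneg (g : ℝ)]
  have hLam0 : 0 < Lam g := lt_of_lt_of_le (by positivity) hLam
  -- the fiber principle
  have hF := fiber_principle (q := q) (g := g) (by omega) hg4 (fun h => OKline q h ∧ ¬ GoodRJ q g h)
    (a := c * lgg + 1 / (g : ℝ) ^ 2) (by positivity) (by
      intro h₀ h0 hL hP
      have h1 := hsieve g hg1 h₀ h0 hP.1
      have h2 : ({h | h ∈ Strict q g ∧ pre g (g - 1) h = pre g (g - 1) h₀ ∧ (OKline q h ∧ ¬ GoodRJ q g h)} :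
          Set ℤ[X]).ncard ≤
          ({h | h ∈ Strict q g ∧ pre g (g - 1) h = pre g (g - 1) h₀ ∧ ¬ GoodRJ q g h} : Set ℤ[X]).ncard := by
        apply Set.ncard_le_ncard
        · intro h hh
          exact ⟨hh.1, hh.2.1, hh.2.2.2⟩
        · exact hfin.subset (fun h hh => hh.1.1)
      have h2' : (({h | h ∈ Strict q g ∧ pre g (g - 1) h = pre g (g - 1) h₀ ∧ (OKline q h ∧ ¬ GoodRJ q g h)} :
          Set ℤ[X]).ncard : ℝ) ≤
          (({h | h ∈ Strict q g ∧ pre g (g - 1) h = pre g (g - 1) h₀ ∧ ¬ GoodRJ q g h} : Set ℤ[X]).ncard : ℝ) := by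
        exact_mod_cast h2
      refine h2'.trans (h1.trans ?_)
      have h3 : (1001 / 1000 : ℝ) ^ (4 * g) ≤ 1 / (g : ℝ) ^ 2 * (LN q g h₀ : ℝ) := by
        have h4 : (1001 / 1000 : ℝ) ^ (4 * g) = 1 / (g : ℝ) ^ 2 * Lam g := by
          unfold Lam
          field_simp
        rw [h4]
        exact mul_le_mul_of_nonneg_left hL (by positivity)
      have h5 : (({h | h ∈ Strict q g ∧ pre g (g - 1) h = pre g (g - 1) h₀} : Set ℤ[X]).ncard : ℝ) =
          (LN q g h₀ : ℝ) := by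
        unfold LN
        rfl
      rw [hclg, h5, add_mul]
      exact add_le_add le_rfl h3)
  have hR := hred g hg2
  have hS := hshort g hg3
  have hB := bad_count (q := q) (g := g) (by omega) hg4
  -- the covering
  have hRfin := hfin.subset (fun h hh => hh.1 : ({h | h ∈ Weil q g ∧ ¬ Irreducible h} : Set ℤ[X]) ⊆ Weil q g)
  have hSfin := hfin.subset (fun h hh => hh.1 : ({h | h ∈ Weil q g ∧ (LN q g h : ℝ) < Lam g} : Set ℤ[X]) ⊆ Weil q g)
  have hBfin := hfin.subset (fun h hh => hh.1 :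
    ({h | h ∈ Weil q g ∧ ¬ OKline q h ∧ Lam g ≤ (LN q g h : ℝ)} : Set ℤ[X]) ⊆ Weil q g)
  have hPfin := hfin.subset (fun h hh => hh.1 :
    ({h | h ∈ Weil q g ∧ (OKline q h ∧ ¬ GoodRJ q g h)} : Set ℤ[X]) ⊆ Weil q g)
  have hcov : ({h | h ∈ Weil q g ∧ ¬ (Irreducible h ∧ GoodRJ q g h)} : Set ℤ[X]) ⊆
      (({h | h ∈ Weil q g ∧ ¬ Irreducible h} : Set ℤ[X]) ∪
        ({h | h ∈ Weil q g ∧ (LN q g h : ℝ) < Lam g} : Set ℤ[X])) ∪
      (({h | h ∈ Weil q g ∧ ¬ OKline q h ∧ Lam g ≤ (LN q g h : ℝ)} : Set ℤ[X]) ∪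
        ({h | h ∈ Weil q g ∧ (OKline q h ∧ ¬ GoodRJ q g h)} : Set ℤ[X])) := by
    intro h hh
    obtain ⟨hW, hn⟩ := hh
    by_cases hi : Irreducible h
    · by_cases hs : (LN q g h : ℝ) < Lam g
      · exact Or.inl (Or.inr ⟨hW, hs⟩)
      · by_cases hok : OKline q h
        · exact Or.inr (Or.inr ⟨hW, hok, fun hgood => hn ⟨hi, hgood⟩⟩)
        · exact Or.inr (Or.inl ⟨hW, hok, not_lt.1 hs⟩)
    · exact Or.inl (Or.inl ⟨hW, hi⟩)
  have hcard : ({h | h ∈ Weil q g ∧ ¬ (Irreducible h ∧ GoodRJ q g h)} : Set ℤ[X]).ncard ≤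
      (({h | h ∈ Weil q g ∧ ¬ Irreducible h} : Set ℤ[X]).ncard +
        ({h | h ∈ Weil q g ∧ (LN q g h : ℝ) < Lam g} : Set ℤ[X]).ncard) +
      (({h | h ∈ Weil q g ∧ ¬ OKline q h ∧ Lam g ≤ (LN q g h : ℝ)} : Set ℤ[X]).ncard +
        ({h | h ∈ Weil q g ∧ (OKline q h ∧ ¬ GoodRJ q g h)} : Set ℤ[X]).ncard) := by
    refine le_trans (Set.ncard_le_ncard hcov ((hRfin.union hSfin).union (hBfin.union hPfin))) ?_
    refine le_trans (Set.ncard_union_le _ _) ?_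
    exact Nat.add_le_add (Set.ncard_union_le _ _) (Set.ncard_union_le _ _)
  have hcardR : (({h | h ∈ Weil q g ∧ ¬ (Irreducible h ∧ GoodRJ q g h)} : Set ℤ[X]).ncard : ℝ) ≤
      ((({h | h ∈ Weil q g ∧ ¬ Irreducible h} : Set ℤ[X]).ncard : ℝ) +
        (({h | h ∈ Weil q g ∧ (LN q g h : ℝ) < Lam g} : Set ℤ[X]).ncard : ℝ)) +
      ((({h | h ∈ Weil q g ∧ ¬ OKline q h ∧ Lam g ≤ (LN q g h : ℝ)} : Set ℤ[X]).ncard : ℝ) +
        (({h | h ∈ Weil q g ∧ (OKline q h ∧ ¬ GoodRJ q g h)} : Set ℤ[X]).ncard : ℝ)) := by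
    exact_mod_cast hcard
  have e1 : CR / (g : ℝ) ^ 2 ≤ CR * lgg := by
    rw [div_eq_mul_one_div]
    exact mul_le_mul_of_nonneg_left hl2 hCR
  have e2 : 256 * (g : ℝ) * Real.sqrt q / Lam g ≤ 256 * Real.sqrt q * lgg := by
    have h1 : 256 * (g : ℝ) * Real.sqrt q / Lam g ≤ 256 * (g : ℝ) * Real.sqrt q / (g : ℝ) ^ 2 :=
      div_le_div_of_nonneg_left (by positivity) (by positivity) hLam
    have h2 : 256 * (g : ℝ) * Real.sqrt q / (g : ℝ) ^ 2 = 256 * Real.sqrt q * (1 / (g : ℝ)) := by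
      field_simp
    rw [h2] at h1
    exact h1.trans (mul_le_mul_of_nonneg_left hl1 (by positivity))
  have f1 := mul_le_mul_of_nonneg_right e1 hN0
  have f2 := mul_le_mul_of_nonneg_right e2 hN0
  have f3 := mul_le_mul_of_nonneg_right hl2 hN0
  have f5 := mul_le_mul_of_nonneg_right hlp hN0
  have e6 : (2 * CR + 2 * 99 + 256 * Real.sqrt q + c + 1) * Real.log g / g * ((Weil q g).ncard : ℝ) =
      2 * (CR * lgg * ((Weil q g).ncard : ℝ)) + 2 * (99 * lgg * ((Weil q g).ncard : ℝ)) +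
        256 * Real.sqrt q * lgg * ((Weil q g).ncard : ℝ) +
        c * lgg * ((Weil q g).ncard : ℝ) + lgg * ((Weil q g).ncard : ℝ) := by
    rw [hlgd]
    ring
  rw [e6]
  rw [add_mul] at hF
  linarith

end TR
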