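import Pool.Agent.Lib.MP_021685_agTR.R1

/-! LEAF R2 (medium).  Partial summation: the sum of `1/ℓ` from below.

PROOF.  `C` from `mert_low q hq`.  Model: `mertA` in `Pool/Agent/Lib/MP_42948a_nt/SV/B1.lean` (in the package, for reading; do not import it), two-sided for all primes; here only one side, and `1/2` in front.  With `u = a`, `v = b` (real numbers), `c k = log k/k` if `k ∈ WP q a b` and `0` otherwise, `S(t) = ∑_{k ≤ t} c k`
and `g(t) = -1/(t log² t)` (the derivative of `1/log t`): Abel summation (`sum_mul_eq_sub_sub_integral_mul`) gives `∑ 1/ℓ = S(v)/log v - ∫_u^v g(t) S(t) dt`.  For `t ∈ [u, v]`: `S(t) = ∑_{ℓ ∈ WP q a ⌊t⌋₊} log ℓ/ℓ ≥ 1/2 (log ⌊t⌋₊ - log u) - C ≥ 1/2 (log t - log u) - C'` with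
`C' = C + log 2` (`log t - log ⌊t⌋₊ ≤ log 2`, see `SV_B1_floor`).  As `g ≤ 0`: `-∫ g S ≥ -∫ g (1/2 (log t - log u) - C') = 1/2 (log (log v/log u) + log u/log v - 1) - C' (1/log u - 1/log v)` (the two integrals are computed in `mertA`), and `S(v)/log v ≥ 1/2 (1 - log u/log v) - C'/log v`.
The sum is `≥ 1/2 log (log v/log u) - C'/log u ≥ 1/2 log (log v/log u) - C'/log 2`.

SECOND PROOF (without integrals, choose what you like).  Discrete Abel summation with `w_n = 1/log n`: `∑_{n=a+1}^b c_n w_n = S(b) w_b + ∑_{n=a+1}^{b-1} S(n) (w_n - w_{n+1})`, all `w_n - w_{n+1} ≥ 0`, `S(n) ≥ 1/2 (log n - log a) - C`, and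
`(log n - log a)(w_n - w_{n+1})` is summed by parts back: `(log b - log a) w_b + ∑_{n=a+1}^{b-1} (log n - log a)(w_n - w_{n+1}) = ∑_{n=a+1}^{b} (log n - log (n-1)) w_n` and `(log n - log (n-1))/log n ≥ log log n - log log (n-1) - 4/n²` (for `n ≥ 3`: with `x = log n`, `y = log (n-1)`:
`log x - log y ≤ (x-y)/y = (x-y)/x + (x-y)²/(x y)` and `x - y ≤ 2/n`, `x y ≥ 1/2`..., any constant instead of `4` is fine), `∑ 4/n² ≤ 8`; the terms with `C` give `- C w_{a+1} ≥ - C/log 2`. -/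

namespace TR

private theorem R2_self (q a : ℕ) (f : ℕ → ℝ) : ∑ ℓ ∈ WP q a a, f ℓ = 0 := by
  refine Finset.sum_eq_zero fun ℓ hℓ => ?_
  rw [mem_WP] at hℓ
  have h1 := hℓ.2.1
  have h2 := hℓ.2.2
  omega

private theorem R2_step (q b : ℕ) (hb : Real.log ((b + 1 : ℕ) : ℝ) ≠ 0) :
    ∑ ℓ ∈ WP q b (b + 1), (1 : ℝ) / ℓ =
      (∑ ℓ ∈ WP q b (b + 1), Real.log ℓ / ℓ) * (1 / Real.log ((b + 1 : ℕ) : ℝ)) := by
  rw [Finset.sum_mul]
  refine Finset.sum_congr rfl fun ℓ hℓ => ?_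
  rw [mem_WP] at hℓ
  have h1 : ℓ = b + 1 := by
    have h1 := hℓ.2.1
    have h2 := hℓ.2.2
    omega
  subst h1
  have h2 : ((b + 1 : ℕ) : ℝ) ≠ 0 := by positivity
  field_simp

private theorem R2_num {L L' : ℝ} (hL : 0 < L) (h1 : L ≤ L') (h2 : L' ≤ L + 1) :
    Real.log L' - Real.log L - (L' - L) * (1 / L') + (1 / L' - 1 / L) ≤ 0 := by
  have hL' : 0 < L' := lt_of_lt_of_le hL h1
  have h3 : Real.log L' - Real.log L ≤ L' * (1 / L) - 1 := by
    rw [← Real.log_div hL'.ne' hL.ne']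
    have h4 := Real.log_le_sub_one_of_pos (div_pos hL' hL)
    rw [div_eq_mul_one_div] at h4
    rw [div_eq_mul_one_div]
    exact h4
  have h5 : 1 / L' ≤ 1 / L := one_div_le_one_div_of_le hL h1
  have h6 : L * (1 / L) = 1 := by field_simp
  have h7 : 0 ≤ (1 - (L' - L)) * (1 / L - 1 / L') := mul_nonneg (by linarith) (by linarith)
  nlinarith

private theorem R2_key (q : ℕ) (C : ℝ)
    (h : ∀ a b : ℕ, 1 ≤ a → a ≤ b → 1 / 2 * (Real.log b - Real.log a) - C ≤ ∑ ℓ ∈ WP q a b, Real.log ℓ / ℓ)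
    (a : ℕ) (ha : 2 ≤ a) (b : ℕ) (hab : a ≤ b) :
    1 / 2 * (Real.log (Real.log b) - Real.log (Real.log a)) +
      (∑ ℓ ∈ WP q a b, Real.log ℓ / ℓ - (1 / 2 * (Real.log b - Real.log a) - C)) * (1 / Real.log b) -
      C * (1 / Real.log a) - 1 / 2 * (1 / Real.log a - 1 / Real.log b) ≤ ∑ ℓ ∈ WP q a b, (1 : ℝ) / ℓ := by
  induction b, hab using Nat.le_induction with
  | base =>
    rw [R2_self, R2_self]
    apply le_of_eq
    ring
  | succ b hab ih =>
    have hb2 : 2 ≤ b := ha.trans hab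
    have hb : (2 : ℝ) ≤ b := by exact_mod_cast hb2
    have hL : 0 < Real.log b := Real.log_pos (by linarith)
    have hLL : Real.log b ≤ Real.log ((b + 1 : ℕ) : ℝ) := by
      refine Real.log_le_log (by linarith) ?_
      push_cast
      linarith
    have hL' : 0 < Real.log ((b + 1 : ℕ) : ℝ) := lt_of_lt_of_le hL hLL
    have hL1 : Real.log ((b + 1 : ℕ) : ℝ) ≤ Real.log b + 1 := by
      have h1 : Real.log ((b + 1 : ℕ) : ℝ) ≤ Real.log (2 * (b : ℝ)) := by
        refine Real.log_le_log (by positivity) ?_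
        push_cast
        linarith
      rw [Real.log_mul (by norm_num) (by linarith)] at h1
      have h2 := Real.log_two_lt_d9
      linarith
    have hnum := R2_num hL hLL hL1
    have h0 := h a b (by omega) hab
    have hw : 1 / Real.log ((b + 1 : ℕ) : ℝ) ≤ 1 / Real.log b := one_div_le_one_div_of_le hL hLL
    rw [WP_split hab (Nat.le_succ b) (fun ℓ => Real.log ℓ / ℓ), WP_split hab (Nat.le_succ b) (fun ℓ => (1 : ℝ) / ℓ),
      R2_step q b hL'.ne']
    have h3 : 0 ≤ (∑ ℓ ∈ WP q a b, Real.log ℓ / ℓ - (1 / 2 * (Real.log b - Real.log a) - C)) *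
        (1 / Real.log b - 1 / Real.log ((b + 1 : ℕ) : ℝ)) :=
      mul_nonneg (by linarith) (by linarith)
    linarith

theorem inv_low (q : ℕ) (hq : 1 ≤ q) : ∃ C : ℝ, 0 ≤ C ∧ ∀ a b : ℕ, 2 ≤ a → a ≤ b →
    1 / 2 * Real.log (Real.log b / Real.log a) - C ≤ ∑ ℓ ∈ WP q a b, (1 : ℝ) / ℓ := by
  obtain ⟨C, hC, h⟩ := mert_low q hq
  have hl2 : 0 < Real.log 2 := Real.log_pos (by norm_num)
  refine ⟨(C + 1 / 2) * (1 / Real.log 2), by positivity, fun a b ha hab => ?_⟩
  have ha' : (2 : ℝ) ≤ a := by exact_mod_cast ha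
  have hb' : (2 : ℝ) ≤ b := by exact_mod_cast ha.trans hab
  have hA : 0 < Real.log a := Real.log_pos (by linarith)
  have hB : 0 < Real.log b := Real.log_pos (by linarith)
  have h1 := R2_key q C h a ha b hab
  have h2 := h a b (by omega) hab
  have h3 : 0 ≤ (∑ ℓ ∈ WP q a b, Real.log ℓ / ℓ - (1 / 2 * (Real.log b - Real.log a) - C)) * (1 / Real.log b) :=
    mul_nonneg (by linarith) (by positivity)
  have h4 : 1 / Real.log a ≤ 1 / Real.log 2 := one_div_le_one_div_of_le hl2 (Real.log_le_log (by norm_num) ha')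
  have h5 : (C + 1 / 2) * (1 / Real.log a) ≤ (C + 1 / 2) * (1 / Real.log 2) :=
    mul_le_mul_of_nonneg_left h4 (by linarith)
  have h6 : 0 ≤ 1 / Real.log b := by positivity
  rw [Real.log_div hB.ne' hA.ne']
  linarith

end TR
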