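import Pool.Agent.Lib.MP_021685_agTR.R2

/-! LEAF R3 (medium-, 2 theorems).  The densities of the blocks.

`delt ℓ = 2 (ℓ - 1)/ℓ² = 2/ℓ - 2/ℓ²` (`TI.delt`, file `MP_021685_agTI/D2.lean`); `blk q g Z j = WP q ((g³)^(2^j)) ((g³)^(2^(j+1))) \ Z`.

PROOF.  (`dens_up`) `delt ℓ ≤ 2/ℓ`; with `a = (g³)^(2^j) ≥ 2`, `(g³)^(2^(j+1)) = a²`: for `ℓ ∈ WP q a (a²)`, `1/ℓ ≤ (log ℓ/ℓ)/log a` (`ℓ > a`), so `∑ 1/ℓ ≤ (log (a²) - log a + C)/log a = 1 + C/log a ≤ 1 + C/log 2` (`mert_up`).  `B = 2 (1 + C/log 2)`.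
(`dens_low`) `C` from `inv_low`.  Let `a = g³ ≥ 2`.  By `WP_split` (induction on `t`) `∑_{j < t} ∑_{ℓ ∈ WP q (a^(2^j)) (a^(2^(j+1)))} f ℓ = ∑_{ℓ ∈ WP q a (a^(2^t))} f ℓ`, and `log (log (a^(2^t))/log a) = log (2^t) = t log 2`; so for `f = 1/ℓ` this is `≥ (t log 2)/2 - C`.
`∑ 2/ℓ² ≤ 2` over a finite set of natural numbers `ℓ > a ≥ 1` (`∑_{n ≥ 2} 1/n² ≤ 1`: `1/n² ≤ 1/(n-1) - 1/n`, telescoping).  The members of `Z`: every `ℓ` of a block is `> g³`, they are different for different blocks, so `∑_j ∑_{ℓ ∈ WP_j ∩ Z} 2/ℓ ≤ |Z| 2/g³ ≤ 2 K/g ≤ 2 K`.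
Together `∑_j ∑_{ℓ ∈ blk j} delt ℓ ≥ ∑_j ∑_{WP_j} (2/ℓ - 2/ℓ²) - ∑_j ∑_{WP_j ∩ Z} 2/ℓ ≥ t log 2 - 2 C - 2 - 2 K`. -/

namespace TR

open TI

private theorem R3_A2 {g : ℕ} (_hg : 2 ≤ g) (j : ℕ) : g ^ 3 ≤ (g ^ 3) ^ 2 ^ j :=
  Nat.le_self_pow (by positivity) _

private theorem R3_g3 {g : ℕ} (hg : 2 ≤ g) : 8 ≤ g ^ 3 := by
  calc 8 = 2 ^ 3 := by norm_num
    _ ≤ g ^ 3 := Nat.pow_le_pow_left hg 3

private theorem R3_sq (g j : ℕ) : (g ^ 3) ^ 2 ^ (j + 1) = ((g ^ 3) ^ 2 ^ j) ^ 2 := by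
  rw [pow_succ 2 j, pow_mul]

private theorem R3_delt_nonneg {ℓ : ℕ} (h : 1 ≤ ℓ) : 0 ≤ delt ℓ := by
  have h1 : (1 : ℝ) ≤ ℓ := by exact_mod_cast h
  unfold delt
  exact div_nonneg (by linarith) (by positivity)

private theorem R3_delt {ℓ : ℕ} (h : 1 ≤ ℓ) : delt ℓ = 2 * (1 / (ℓ : ℝ)) - 2 * ((ℓ : ℝ) ^ 2)⁻¹ := by
  have h1 : (0 : ℝ) < ℓ := by exact_mod_cast h
  unfold delt
  field_simp

private theorem R3_delt_le {ℓ : ℕ} (h : 1 ≤ ℓ) : delt ℓ ≤ 2 * (1 / (ℓ : ℝ)) := by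
  rw [R3_delt h]
  have : (0 : ℝ) ≤ ((ℓ : ℝ) ^ 2)⁻¹ := by positivity
  linarith

private theorem R3_split {q g : ℕ} (hg : 2 ≤ g) (f : ℕ → ℝ) (t : ℕ) :
    ∑ j ∈ Finset.range t, ∑ ℓ ∈ WP q ((g ^ 3) ^ 2 ^ j) ((g ^ 3) ^ 2 ^ (j + 1)), f ℓ =
      ∑ ℓ ∈ WP q (g ^ 3) ((g ^ 3) ^ 2 ^ t), f ℓ := by
  induction t with
  | zero =>
    rw [Finset.range_zero, Finset.sum_empty, pow_zero, pow_one]
    symm
    refine Finset.sum_eq_zero fun ℓ hℓ => ?_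
    rw [mem_WP] at hℓ
    omega
  | succ t ih =>
    rw [Finset.sum_range_succ, ih]
    refine (WP_split (R3_A2 hg t) ?_ f).symm
    exact Nat.pow_le_pow_right (by positivity) (Nat.pow_le_pow_right (by norm_num) (Nat.le_succ t))

theorem dens_up (q : ℕ) : ∃ B : ℝ, 0 ≤ B ∧ ∀ g : ℕ, 2 ≤ g → ∀ (Z : Finset ℕ) (j : ℕ),
    ∑ ℓ ∈ blk q g Z j, delt ℓ ≤ B := by
  obtain ⟨C, hC, h⟩ := mert_up q
  have hl2 : 0 < Real.log 2 := Real.log_pos (by norm_num)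
  refine ⟨2 * (1 + C / Real.log 2), by positivity, fun g hg Z j => ?_⟩
  set a : ℕ := (g ^ 3) ^ 2 ^ j with ha
  have ha8 : 8 ≤ a := (R3_g3 hg).trans (R3_A2 hg j)
  have hla : Real.log 2 ≤ Real.log a := by
    refine Real.log_le_log (by norm_num) ?_
    exact_mod_cast (by omega : 2 ≤ a)
  have hla0 : 0 < Real.log a := lt_of_lt_of_le hl2 hla
  have h1 := h a (a ^ 2) (by omega) (Nat.le_self_pow (by norm_num) a)
  have h2 : Real.log ((a ^ 2 : ℕ) : ℝ) = 2 * Real.log a := by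
    rw [Nat.cast_pow, Real.log_pow]
    norm_num
  rw [h2] at h1
  have hpos : ∀ ℓ ∈ WP q a (a ^ 2), 1 ≤ ℓ := by
    intro ℓ hℓ
    rw [mem_WP] at hℓ
    omega
  calc ∑ ℓ ∈ blk q g Z j, delt ℓ ≤ ∑ ℓ ∈ WP q a (a ^ 2), delt ℓ := by
        unfold blk
        rw [R3_sq, ← ha]
        refine Finset.sum_le_sum_of_subset_of_nonneg Finset.sdiff_subset fun ℓ hℓ _ => ?_
        exact R3_delt_nonneg (hpos ℓ hℓ)
    _ ≤ ∑ ℓ ∈ WP q a (a ^ 2), 2 / Real.log a * (Real.log ℓ / ℓ) := by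
        refine Finset.sum_le_sum fun ℓ hℓ => (R3_delt_le (hpos ℓ hℓ)).trans ?_
        have h3 := hpos ℓ hℓ
        rw [mem_WP] at hℓ
        have h4 : (0 : ℝ) < ℓ := by exact_mod_cast h3
        have h5 : Real.log a ≤ Real.log ℓ := by
          refine Real.log_le_log (by exact_mod_cast (by omega : 0 < a)) ?_
          exact_mod_cast hℓ.2.1.le
        have h6 : 2 / Real.log a * (Real.log ℓ / ℓ) = 2 * (1 / (ℓ : ℝ)) * (Real.log ℓ / Real.log a) := by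
          field_simp
        rw [h6]
        have h7 : 1 ≤ Real.log ℓ / Real.log a := by
          rw [le_div_iff₀ hla0]
          linarith
        exact le_mul_of_one_le_right (by positivity) h7
    _ = 2 / Real.log a * ∑ ℓ ∈ WP q a (a ^ 2), Real.log ℓ / ℓ := by rw [Finset.mul_sum]
    _ ≤ 2 / Real.log a * (Real.log a + C) := by
        refine mul_le_mul_of_nonneg_left ?_ (by positivity)
        linarith
    _ = 2 * (1 + C / Real.log a) := by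
        field_simp
    _ ≤ 2 * (1 + C / Real.log 2) := by
        have h8 : C / Real.log a ≤ C / Real.log 2 := div_le_div_of_nonneg_left hC hl2 hla
        linarith

theorem dens_low (q : ℕ) (hq : 1 ≤ q) : ∃ C : ℝ, 0 ≤ C ∧ ∀ g : ℕ, 2 ≤ g → ∀ (t : ℕ) (Z : Finset ℕ) (K : ℝ), 0 ≤ K →
    (Z.card : ℝ) ≤ K * (g : ℝ) ^ 2 →
      t * Real.log 2 - C - 2 * K ≤ ∑ j : Fin t, ∑ ℓ ∈ blk q g Z (j : ℕ), delt ℓ := by
  obtain ⟨C, hC, h⟩ := inv_low q hq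
  refine ⟨2 * C + 2, by positivity, fun g hg t Z K hK hZ => ?_⟩
  have hg3 := R3_g3 hg
  set W : Finset ℕ := WP q (g ^ 3) ((g ^ 3) ^ 2 ^ t) with hW
  have hpos : ∀ ℓ ∈ W, g ^ 3 < ℓ := fun ℓ hℓ => (mem_WP.1 hℓ).2.1
  have h1 : ∑ j : Fin t, ∑ ℓ ∈ blk q g Z (j : ℕ), delt ℓ = ∑ ℓ ∈ W, if ℓ ∈ Z then 0 else delt ℓ := by
    rw [Fin.sum_univ_eq_sum_range (fun j => ∑ ℓ ∈ blk q g Z j, delt ℓ) t, hW,
      ← R3_split hg (fun ℓ => if ℓ ∈ Z then 0 else delt ℓ) t]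
    refine Finset.sum_congr rfl fun j _ => ?_
    unfold blk
    rw [Finset.sdiff_eq_filter, Finset.sum_filter]
    refine Finset.sum_congr rfl fun ℓ _ => ?_
    by_cases hℓ : ℓ ∈ Z
    · rw [if_neg (not_not.2 hℓ), if_pos hℓ]
    · rw [if_pos hℓ, if_neg hℓ]
  have h2 : ∑ ℓ ∈ W, (if ℓ ∈ Z then 0 else delt ℓ) = ∑ ℓ ∈ W, delt ℓ - ∑ ℓ ∈ W, if ℓ ∈ Z then delt ℓ else 0 := by
    rw [← Finset.sum_sub_distrib]
    refine Finset.sum_congr rfl fun ℓ _ => ?_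
    by_cases hℓ : ℓ ∈ Z
    · rw [if_pos hℓ, if_pos hℓ, sub_self]
    · rw [if_neg hℓ, if_neg hℓ, sub_zero]
  have hgr : (2 : ℝ) ≤ g := by exact_mod_cast hg
  have h3 : ∑ ℓ ∈ W, (if ℓ ∈ Z then delt ℓ else 0) ≤ 2 * K := by
    rw [← Finset.sum_filter]
    have h4 : ∀ ℓ ∈ W.filter (fun ℓ => ℓ ∈ Z), delt ℓ ≤ 2 / (g : ℝ) ^ 3 := by
      intro ℓ hℓ
      have h5 := hpos ℓ (Finset.mem_filter.1 hℓ).1
      refine (R3_delt_le (by omega)).trans ?_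
      have h6 : (g : ℝ) ^ 3 ≤ ℓ := by exact_mod_cast h5.le
      rw [mul_one_div]
      exact div_le_div_of_nonneg_left (by norm_num) (by positivity) h6
    refine (Finset.sum_le_card_nsmul _ _ _ h4).trans ?_
    rw [nsmul_eq_mul]
    have h7 : ((W.filter (fun ℓ => ℓ ∈ Z)).card : ℝ) ≤ K * (g : ℝ) ^ 2 := by
      refine le_trans ?_ hZ
      exact_mod_cast Finset.card_le_card fun ℓ hℓ => (Finset.mem_filter.1 hℓ).2
    calc ((W.filter (fun ℓ => ℓ ∈ Z)).card : ℝ) * (2 / (g : ℝ) ^ 3)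
        ≤ K * (g : ℝ) ^ 2 * (2 / (g : ℝ) ^ 3) := mul_le_mul_of_nonneg_right h7 (by positivity)
      _ = 2 * K * (1 / g) := by field_simp
      _ ≤ 2 * K * 1 := by
          refine mul_le_mul_of_nonneg_left ?_ (by positivity)
          rw [div_le_one (by linarith)]
          linarith
      _ = 2 * K := mul_one _
  have h8 : ∑ ℓ ∈ W, delt ℓ = 2 * ∑ ℓ ∈ W, 1 / (ℓ : ℝ) - 2 * ∑ ℓ ∈ W, ((ℓ : ℝ) ^ 2)⁻¹ := by
    rw [Finset.mul_sum, Finset.mul_sum, ← Finset.sum_sub_distrib]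
    refine Finset.sum_congr rfl fun ℓ hℓ => R3_delt ?_
    have := hpos ℓ hℓ
    omega
  have h9 : ∑ ℓ ∈ W, ((ℓ : ℝ) ^ 2)⁻¹ ≤ 1 := by
    have h10 : W ⊆ Finset.Ioc 1 ((g ^ 3) ^ 2 ^ t) := by
      intro ℓ hℓ
      have h11 := (mem_WP.1 hℓ).2
      rw [Finset.mem_Ioc]
      omega
    refine (Finset.sum_le_sum_of_subset_of_nonneg h10 fun ℓ _ _ => by positivity).trans ?_
    have h12 : 1 ≤ (g ^ 3) ^ 2 ^ t := Nat.one_le_iff_ne_zero.2 (by positivity)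
    have h13 := sum_Ioc_inv_sq_le_sub (α := ℝ) one_ne_zero h12
    refine h13.trans ?_
    rw [Nat.cast_one, inv_one]
    have : (0 : ℝ) ≤ (((g ^ 3) ^ 2 ^ t : ℕ) : ℝ)⁻¹ := by positivity
    linarith
  have h14 := h (g ^ 3) ((g ^ 3) ^ 2 ^ t) (by omega) (R3_A2 hg t)
  have hlg : 0 < Real.log ((g ^ 3 : ℕ) : ℝ) := Real.log_pos (by exact_mod_cast (by omega : 1 < g ^ 3))
  have h15 : Real.log (((g ^ 3) ^ 2 ^ t : ℕ) : ℝ) / Real.log ((g ^ 3 : ℕ) : ℝ) = 2 ^ t := by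
    rw [Nat.cast_pow (g ^ 3) (2 ^ t), Real.log_pow, mul_div_assoc, div_self hlg.ne', mul_one]
    push_cast
    rfl
  rw [h15, Real.log_pow] at h14
  rw [h1, h2, h8]
  linarith

end TR
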