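import Pool.Agent.Lib.MP_021685_agTR.RD

/-! LEAF R4 (medium-, 4 theorems).  Truncated alternating sums (Bonferroni's inequalities).

PROOF.  (`trunc_zero`) only `S = ∅`.  (`trunc_insert`) the subsets of `insert x P` with at most `k + 1` elements are those of `P`, and the `insert x S` with `S ⊆ P`, `|S| ≤ k` (`Finset.powerset_insert`, `Finset.sum_union`, `Finset.sum_image`, `Finset.prod_insert`).
(`trunc_bounds`) induction on `P`, for all `k`.  Write `T_k(P)` for the truncated sum, `Π(P)` for the product, `s(P)` for the sum of the `f i`.  `P = ∅`: `T_k(∅) = 1 = Π(∅)`.  Step, `P' = insert x P`, `y = f x`: `k = 0`: `T_0 = 1` and `0 ≤ 1 - Π(P') = (1 - Π(P)) + y Π(P) ≤ s(P) + y`.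
`k + 1`: `(-1)^(k+1) (T_{k+1}(P') - (1-y) Π(P)) = (-1)^(k+1) (T_{k+1}(P) - Π(P)) + y (-1)^k (T_k(P) - Π(P))`, which is `≥ 0` and `≤ s^(k+2)/(k+2)! + y s^(k+1)/(k+1)! ≤ (s+y)^(k+2)/(k+2)!` (the last step: `(s+y)^m ≥ s^m + m y s^(m-1)` for `s, y ≥ 0`, by induction on `m`).
(`trunc_neg`) induction on `P`, for all `k`: `k = 0` clear; `T_{k+1}(P', -M) = T_{k+1}(P, -M) + M x T_k(P, -M) ≤ (1+s)^(k+1) + M x (1+s)^k = (1+s)^k (1 + s + M x) ≤ (1+s+M x)^(k+1)`. -/

namespace TR

private theorem R4_empty (k : ℕ) (f : ℕ → ℝ) : trunc k ∅ f = 1 := by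
  unfold trunc
  have h : (∅ : Finset ℕ).powerset.filter (fun S => S.card ≤ k) = {∅} := by
    ext S
    rw [Finset.mem_filter, Finset.powerset_empty, Finset.mem_singleton]
    constructor
    · exact fun h => h.1
    · rintro rfl
      exact ⟨rfl, by rw [Finset.card_empty]; exact Nat.zero_le k⟩
  rw [h, Finset.sum_singleton, Finset.prod_empty]

private theorem R4_pw (m : ℕ) {s y : ℝ} (hs : 0 ≤ s) (hy : 0 ≤ y) :
    s ^ (m + 1) + ((m : ℝ) + 1) * (y * s ^ m) ≤ (s + y) ^ (m + 1) := by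
  induction m with
  | zero =>
    rw [zero_add, pow_one, pow_one, pow_zero, Nat.cast_zero]
    linarith
  | succ m ih =>
    have h1 : 0 ≤ ((m : ℝ) + 1) * (y * (y * s ^ m)) := by positivity
    have h2 : (s + y) * (s ^ (m + 1) + ((m : ℝ) + 1) * (y * s ^ m)) ≤ (s + y) * (s + y) ^ (m + 1) :=
      mul_le_mul_of_nonneg_left ih (add_nonneg hs hy)
    have h3 : (s + y) * (s + y) ^ (m + 1) = (s + y) ^ (m + 1 + 1) := by ring
    rw [h3] at h2
    refine le_trans ?_ h2
    have h4 : (s + y) * (s ^ (m + 1) + ((m : ℝ) + 1) * (y * s ^ m)) =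
        s ^ (m + 1 + 1) + (((m + 1 : ℕ) : ℝ) + 1) * (y * s ^ (m + 1)) +
          ((m : ℝ) + 1) * (y * (y * s ^ m)) := by
      push_cast
      ring
    rw [h4]
    linarith

theorem trunc_zero (P : Finset ℕ) (f : ℕ → ℝ) : trunc 0 P f = 1 := by
  unfold trunc
  have h : P.powerset.filter (fun S => S.card ≤ 0) = {∅} := by
    ext S
    rw [Finset.mem_filter, Finset.mem_powerset, Finset.mem_singleton, Nat.le_zero,
      Finset.card_eq_zero]
    exact ⟨fun h => h.2, fun h => ⟨h ▸ Finset.empty_subset P, h⟩⟩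
  rw [h, Finset.sum_singleton, Finset.prod_empty]

theorem trunc_insert (k : ℕ) {P : Finset ℕ} {x : ℕ} (hx : x ∉ P) (f : ℕ → ℝ) :
    trunc (k + 1) (insert x P) f = trunc (k + 1) P f - f x * trunc k P f := by
  unfold trunc
  have h : (insert x P).powerset.filter (fun S => S.card ≤ k + 1) =
      P.powerset.filter (fun S => S.card ≤ k + 1) ∪
        (P.powerset.filter (fun S => S.card ≤ k)).image (insert x) := by
    ext S
    rw [Finset.mem_filter, Finset.powerset_insert, Finset.mem_union, Finset.mem_image,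
      Finset.mem_union, Finset.mem_filter, Finset.mem_image]
    constructor
    · rintro ⟨h1 | ⟨S', h1, rfl⟩, h2⟩
      · exact Or.inl ⟨h1, h2⟩
      · refine Or.inr ⟨S', Finset.mem_filter.2 ⟨h1, ?_⟩, rfl⟩
        have hx' : x ∉ S' := fun h => hx (Finset.mem_powerset.1 h1 h)
        rw [Finset.card_insert_of_notMem hx'] at h2
        omega
    · rintro (h1 | ⟨S', h1, rfl⟩)
      · exact ⟨Or.inl h1.1, h1.2⟩
      · rw [Finset.mem_filter] at h1
        exact ⟨Or.inr ⟨S', h1.1, rfl⟩, (Finset.card_insert_le _ _).trans (Nat.succ_le_succ h1.2)⟩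
  have hd : Disjoint (P.powerset.filter (fun S => S.card ≤ k + 1))
      ((P.powerset.filter (fun S => S.card ≤ k)).image (insert x)) := by
    rw [Finset.disjoint_left]
    intro S h1 h2
    obtain ⟨S', -, rfl⟩ := Finset.mem_image.1 h2
    exact hx (Finset.mem_powerset.1 (Finset.mem_filter.1 h1).1 (Finset.mem_insert_self x S'))
  have hinj : Set.InjOn (insert x) ((P.powerset.filter (fun S => S.card ≤ k) : Finset (Finset ℕ)) :
      Set (Finset ℕ)) := by
    intro S h1 S' h2 he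
    have h3 : x ∉ S := fun h =>
      hx (Finset.mem_powerset.1 (Finset.mem_filter.1 (Finset.mem_coe.1 h1)).1 h)
    have h4 : x ∉ S' := fun h =>
      hx (Finset.mem_powerset.1 (Finset.mem_filter.1 (Finset.mem_coe.1 h2)).1 h)
    have he' : insert x S = insert x S' := he
    rw [← Finset.erase_insert h3, he', Finset.erase_insert h4]
  rw [h, Finset.sum_union hd, Finset.sum_image hinj, sub_eq_add_neg, ← neg_mul, Finset.mul_sum]
  congr 1
  refine Finset.sum_congr rfl fun S hS => ?_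
  have h3 : x ∉ S := fun h => hx (Finset.mem_powerset.1 (Finset.mem_filter.1 hS).1 h)
  rw [Finset.prod_insert h3]

theorem trunc_bounds (k : ℕ) (P : Finset ℕ) (f : ℕ → ℝ) (h0 : ∀ i ∈ P, 0 ≤ f i) (h1 : ∀ i ∈ P, f i ≤ 1) :
    0 ≤ (-1) ^ k * (trunc k P f - ∏ i ∈ P, (1 - f i)) ∧
      (-1) ^ k * (trunc k P f - ∏ i ∈ P, (1 - f i)) ≤ (∑ i ∈ P, f i) ^ (k + 1) / ((k + 1).factorial : ℝ) := by
  induction P using Finset.induction_on generalizing k with
  | empty =>
    rw [R4_empty, Finset.prod_empty, Finset.sum_empty, sub_self, mul_zero, zero_pow (Nat.succ_ne_zero k),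
      zero_div]
    exact ⟨le_rfl, le_rfl⟩
  | insert x P hx ih =>
    have h0' : ∀ i ∈ P, 0 ≤ f i := fun i hi => h0 i (Finset.mem_insert_of_mem hi)
    have h1' : ∀ i ∈ P, f i ≤ 1 := fun i hi => h1 i (Finset.mem_insert_of_mem hi)
    have hy0 : 0 ≤ f x := h0 x (Finset.mem_insert_self x P)
    have hy1 : f x ≤ 1 := h1 x (Finset.mem_insert_self x P)
    have hs0 : 0 ≤ ∑ i ∈ P, f i := Finset.sum_nonneg h0'
    have hp0 : 0 ≤ ∏ i ∈ P, (1 - f i) := Finset.prod_nonneg fun i hi => sub_nonneg.2 (h1' i hi)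
    rw [Finset.prod_insert hx, Finset.sum_insert hx]
    cases k with
    | zero =>
      obtain ⟨a1, a2⟩ := ih 0 h0' h1'
      rw [trunc_zero, pow_zero, one_mul] at a1 a2
      rw [zero_add, pow_one, Nat.factorial_one, Nat.cast_one, div_one] at a2
      rw [trunc_zero, pow_zero, one_mul, zero_add, pow_one, Nat.factorial_one, Nat.cast_one, div_one]
      have hp1 : ∏ i ∈ P, (1 - f i) ≤ 1 := by linarith
      have h2 : f x * ∏ i ∈ P, (1 - f i) ≤ f x := mul_le_of_le_one_right hy0 hp1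
      have h3 : 0 ≤ f x * ∏ i ∈ P, (1 - f i) := mul_nonneg hy0 hp0
      constructor
      · linarith
      · linarith
    | succ k =>
      obtain ⟨a1, a2⟩ := ih (k + 1) h0' h1'
      obtain ⟨b1, b2⟩ := ih k h0' h1'
      have e : (-1 : ℝ) ^ (k + 1) * (trunc (k + 1) (insert x P) f - (1 - f x) * ∏ i ∈ P, (1 - f i)) =
          (-1) ^ (k + 1) * (trunc (k + 1) P f - ∏ i ∈ P, (1 - f i)) +
            f x * ((-1) ^ k * (trunc k P f - ∏ i ∈ P, (1 - f i))) := by
        rw [trunc_insert k hx]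
        ring
      rw [e]
      refine ⟨add_nonneg a1 (mul_nonneg hy0 b1), ?_⟩
      refine (add_le_add a2 (mul_le_mul_of_nonneg_left b2 hy0)).trans ?_
      have h2 := R4_pw (k + 1) hs0 hy0
      have hf1 : (0 : ℝ) < ((k + 1).factorial : ℝ) := by exact_mod_cast Nat.factorial_pos _
      have hf2 : (((k + 1 + 1).factorial : ℕ) : ℝ) = ((k : ℝ) + 2) * ((k + 1).factorial : ℝ) := by
        rw [Nat.factorial_succ (k + 1)]
        push_cast
        ring
      have hk2 : (0 : ℝ) < (k : ℝ) + 2 := by positivity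
      rw [hf2, add_comm (f x) (∑ i ∈ P, f i)]
      push_cast at h2
      rw [← sub_nonneg]
      have e2 : (∑ i ∈ P, f i + f x) ^ (k + 1 + 1) / (((k : ℝ) + 2) * ((k + 1).factorial : ℝ)) -
          ((∑ i ∈ P, f i) ^ (k + 1 + 1) / (((k : ℝ) + 2) * ((k + 1).factorial : ℝ)) +
            f x * ((∑ i ∈ P, f i) ^ (k + 1) / ((k + 1).factorial : ℝ))) =
          ((∑ i ∈ P, f i + f x) ^ (k + 1 + 1) - ((∑ i ∈ P, f i) ^ (k + 1 + 1) +
            ((k : ℝ) + 1 + 1) * (f x * (∑ i ∈ P, f i) ^ (k + 1)))) /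
              (((k : ℝ) + 2) * ((k + 1).factorial : ℝ)) := by
        field_simp
        ring
      rw [e2]
      exact div_nonneg (sub_nonneg.2 h2) (mul_pos hk2 hf1).le

theorem trunc_neg (k : ℕ) (P : Finset ℕ) (M : ℕ → ℝ) (hM : ∀ i ∈ P, 0 ≤ M i) :
    trunc k P (fun i => - M i) ≤ (1 + ∑ i ∈ P, M i) ^ k := by
  induction P using Finset.induction_on generalizing k with
  | empty =>
    rw [R4_empty, Finset.sum_empty, add_zero, one_pow]
  | insert x P hx ih =>
    have h0' : ∀ i ∈ P, 0 ≤ M i := fun i hi => hM i (Finset.mem_insert_of_mem hi)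
    have hy0 : 0 ≤ M x := hM x (Finset.mem_insert_self x P)
    have hs0 : 0 ≤ ∑ i ∈ P, M i := Finset.sum_nonneg h0'
    rw [Finset.sum_insert hx]
    cases k with
    | zero =>
      rw [trunc_zero, pow_zero]
    | succ k =>
      rw [trunc_insert k hx]
      have a := ih (k + 1) h0'
      have b := mul_le_mul_of_nonneg_left (ih k h0') hy0
      have h1 : (1 + ∑ i ∈ P, M i) ^ k ≤ (1 + (M x + ∑ i ∈ P, M i)) ^ k :=
        pow_le_pow_left₀ (by linarith) (by linarith) k
      have h2 : (1 + ∑ i ∈ P, M i) ^ k * (1 + (M x + ∑ i ∈ P, M i)) ≤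
          (1 + (M x + ∑ i ∈ P, M i)) ^ k * (1 + (M x + ∑ i ∈ P, M i)) :=
        mul_le_mul_of_nonneg_right h1 (by linarith)
      have e1 : (1 + ∑ i ∈ P, M i) ^ (k + 1) + M x * (1 + ∑ i ∈ P, M i) ^ k =
          (1 + ∑ i ∈ P, M i) ^ k * (1 + (M x + ∑ i ∈ P, M i)) := by ring
      have e2 : (1 + (M x + ∑ i ∈ P, M i)) ^ (k + 1) =
          (1 + (M x + ∑ i ∈ P, M i)) ^ k * (1 + (M x + ∑ i ∈ P, M i)) := pow_succ _ _
      rw [e2]
      refine le_trans ?_ h2
      rw [← e1]
      have e3 : trunc (k + 1) P (fun i => -M i) - -M x * trunc k P (fun i => -M i) =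
          trunc (k + 1) P (fun i => -M i) + M x * trunc k P (fun i => -M i) := by ring
      rw [e3]
      exact add_le_add a b

end TR
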