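import Pool.Agent.Lib.MP_021685_agTR.R4

/-! LEAF R5 (medium).  The sieve of Brun and Hooley.

PROOF.  For `c ∈ J` let `e_c(ℓ) = 1` if `E ℓ c` and `0` otherwise.  By `trunc_bounds` with `f = e_c` and the even number `k j`: `trunc (k j) (P j) e_c ≥ ∏_{ℓ ∈ P j} (1 - e_c ℓ)`, which is `≥ 0`, and `= 1` if no `E ℓ c` with `ℓ ∈ P j` holds.  So the left side is `≤ ∑_{c ∈ J} ∏_j trunc (k j) (P j) e_c`.
Expand (`Finset.prod_univ_sum`, all `p` in `Fintype.piFinset (fun j => (P j).powerset.filter (fun S => S.card ≤ k j))`): `∏_j trunc (k j) (P j) f = ∑_p ∏_j ∏_{ℓ ∈ p j} (- f ℓ)`, for `f = e_c` and for `f = d`.  As the `P j` are disjoint, so are the `p j`; with `U = ⋃_j p j` (`Finset.univ.biUnion p`) and the sign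
`s_p = ∏_j (-1)^|p j|`: `∏_j ∏_{ℓ ∈ p j} (- f ℓ) = s_p ∏_{ℓ ∈ U} f ℓ` (`Finset.prod_biUnion`), and `∑_{c ∈ J} ∏_{ℓ ∈ U} e_c ℓ` is the number of the `c ∈ J` with `E ℓ c` for all `ℓ ∈ U`.  By `hN` for `S = U` (`|s_p| = 1`):
`∑_{c ∈ J} ∏_j trunc (k j) (P j) e_c ≤ ∑_p (s_p |J| ∏_U d + ∏_U M) = |J| ∏_j trunc (k j) (P j) d + ∑_p ∏_j ∏_{ℓ ∈ p j} M ℓ`, and `∑_p ∏_j ∏_{ℓ ∈ p j} M ℓ = ∏_j trunc (k j) (P j) (-M) ≤ ∏_j (1 + ∑_{P j} M)^(k j)` (`trunc_neg`, the factors are `≥ 0`).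
(A proof by induction on `t` is fine as well: prove for all finite sets `S₀` disjoint to the `P j` the estimate `|∑_{c ∈ J, E on S₀} ∏_j trunc (k j) (P j) e_c - |J| ∏_{S₀} d ∏_j trunc (k j) (P j) d| ≤ ∏_{S₀} M ∏_j trunc (k j) (P j) (-M)`.) -/

namespace TR

open Classical in
theorem hooley (J : Finset ℤ) (t : ℕ) (P : Fin t → Finset ℕ) (k : Fin t → ℕ) (hk : ∀ j, Even (k j))
    (hdis : ∀ i j, i ≠ j → Disjoint (P i) (P j)) (E : ℕ → ℤ → Prop) (d M : ℕ → ℝ)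
    (hM : ∀ j, ∀ ℓ ∈ P j, 0 ≤ M ℓ)
    (hN : ∀ S : Finset ℕ, (∀ ℓ ∈ S, ∃ j, ℓ ∈ P j) →
      |(((J.filter (fun c : ℤ => ∀ ℓ ∈ S, E ℓ c)).card : ℕ) : ℝ) - (J.card : ℝ) * ∏ ℓ ∈ S, d ℓ| ≤ ∏ ℓ ∈ S, M ℓ) :
    (((J.filter (fun c : ℤ => ∀ j, ∀ ℓ ∈ P j, ¬ E ℓ c)).card : ℕ) : ℝ) ≤
      (J.card : ℝ) * ∏ j, trunc (k j) (P j) d + ∏ j, (1 + ∑ ℓ ∈ P j, M ℓ) ^ k j := by
  set e : ℤ → ℕ → ℝ := fun c ℓ => if E ℓ c then 1 else 0 with he
  have he0 : ∀ c ℓ, 0 ≤ e c ℓ := by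
    intro c ℓ
    simp only [he]
    split_ifs <;> norm_num
  have he1 : ∀ c ℓ, e c ℓ ≤ 1 := by
    intro c ℓ
    simp only [he]
    split_ifs <;> norm_num
  set A : Fin t → Finset (Finset ℕ) := fun j => (P j).powerset.filter (fun S => S.card ≤ k j) with hA
  have htr : ∀ f : ℕ → ℝ, ∏ j, trunc (k j) (P j) f = ∑ p ∈ Fintype.piFinset A, ∏ j, ∏ i ∈ p j, (- f i) := by
    intro f
    unfold trunc
    exact Finset.prod_univ_sum A (fun _ S => ∏ i ∈ S, (- f i))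
  have hsub : ∀ p ∈ Fintype.piFinset A, ∀ j, p j ⊆ P j := by
    intro p hp j
    have h1 := Fintype.mem_piFinset.1 hp j
    rw [hA] at h1
    exact Finset.mem_powerset.1 (Finset.mem_filter.1 h1).1
  have hU : ∀ p ∈ Fintype.piFinset A, ∀ f : ℕ → ℝ, ∏ j, ∏ i ∈ p j, f i = ∏ i ∈ Finset.univ.biUnion p, f i := by
    intro p hp f
    rw [Finset.prod_biUnion]
    intro i _ j _ hij
    exact Finset.disjoint_of_subset_left (hsub p hp i) (Finset.disjoint_of_subset_right (hsub p hp j) (hdis i j hij))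
  have hneg : ∀ (S : Finset ℕ) (f : ℕ → ℝ), ∏ i ∈ S, (- f i) = (-1) ^ S.card * ∏ i ∈ S, f i := by
    intro S f
    rw [← Finset.prod_const, ← Finset.prod_mul_distrib]
    exact Finset.prod_congr rfl fun i _ => by ring
  -- the number as a sum
  have hleft : (((J.filter (fun c : ℤ => ∀ j, ∀ ℓ ∈ P j, ¬ E ℓ c)).card : ℕ) : ℝ) ≤
      ∑ c ∈ J, ∏ j, trunc (k j) (P j) (e c) := by
    have h0 : ∀ (c : ℤ) (j : Fin t), ∏ i ∈ P j, (1 - e c i) ≤ trunc (k j) (P j) (e c) := by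
      intro c j
      have h := (trunc_bounds (k j) (P j) (e c) (fun i _ => he0 c i) (fun i _ => he1 c i)).1
      rw [(hk j).neg_one_pow, one_mul] at h
      linarith
    have h1 : ∀ (c : ℤ) (j : Fin t), 0 ≤ ∏ i ∈ P j, (1 - e c i) := fun c j =>
      Finset.prod_nonneg fun i _ => by linarith [he1 c i]
    have h2 : ∀ c : ℤ, 0 ≤ ∏ j, trunc (k j) (P j) (e c) := fun c =>
      Finset.prod_nonneg fun j _ => (h1 c j).trans (h0 c j)
    calc (((J.filter (fun c : ℤ => ∀ j, ∀ ℓ ∈ P j, ¬ E ℓ c)).card : ℕ) : ℝ)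
        = ∑ c ∈ J.filter (fun c : ℤ => ∀ j, ∀ ℓ ∈ P j, ¬ E ℓ c), (1 : ℝ) := by simp
      _ ≤ ∑ c ∈ J.filter (fun c : ℤ => ∀ j, ∀ ℓ ∈ P j, ¬ E ℓ c), ∏ j, trunc (k j) (P j) (e c) := by
          refine Finset.sum_le_sum fun c hc => ?_
          have hc2 := (Finset.mem_filter.1 hc).2
          have h3 : ∀ j : Fin t, (1 : ℝ) ≤ trunc (k j) (P j) (e c) := by
            intro j
            refine le_trans (le_of_eq ?_) (h0 c j)
            symm
            apply Finset.prod_eq_one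
            intro i hi
            simp only [he]
            rw [if_neg (hc2 j i hi), sub_zero]
          calc (1 : ℝ) = ∏ _j : Fin t, (1 : ℝ) := by simp
            _ ≤ ∏ j, trunc (k j) (P j) (e c) := Finset.prod_le_prod (fun _ _ => zero_le_one) fun j _ => h3 j
      _ ≤ _ := Finset.sum_le_sum_of_subset_of_nonneg (Finset.filter_subset _ _) fun c _ _ => h2 c
  -- one subset
  have hone : ∀ p ∈ Fintype.piFinset A, ∑ c ∈ J, ∏ j, ∏ i ∈ p j, (- e c i) ≤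
      (J.card : ℝ) * ∏ j, ∏ i ∈ p j, (- d i) + ∏ j, ∏ i ∈ p j, M i := by
    intro p hp
    set U := Finset.univ.biUnion p with hUdef
    have hUm : ∀ ℓ ∈ U, ∃ j, ℓ ∈ P j := by
      intro ℓ hℓ
      obtain ⟨j, _, hj⟩ := Finset.mem_biUnion.1 hℓ
      exact ⟨j, hsub p hp j hj⟩
    have h1 : ∀ c : ℤ, ∏ j, ∏ i ∈ p j, (- e c i) = (-1) ^ U.card * ∏ i ∈ U, e c i := by
      intro c
      rw [hU p hp (fun i => - e c i), ← hneg]
    have h2 : ∏ j, ∏ i ∈ p j, (- d i) = (-1) ^ U.card * ∏ i ∈ U, d i := by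
      rw [hU p hp (fun i => - d i), ← hneg]
    have h3 : ∑ c ∈ J, ∏ i ∈ U, e c i = (((J.filter (fun c : ℤ => ∀ ℓ ∈ U, E ℓ c)).card : ℕ) : ℝ) := by
      rw [← Finset.sum_boole]
      refine Finset.sum_congr rfl fun c _ => ?_
      by_cases hc : ∀ ℓ ∈ U, E ℓ c
      · rw [if_pos hc]
        apply Finset.prod_eq_one
        intro i hi
        simp only [he]
        rw [if_pos (hc i hi)]
      · rw [if_neg hc]
        push Not at hc
        obtain ⟨ℓ, hℓ, hn⟩ := hc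
        apply Finset.prod_eq_zero hℓ
        simp only [he]
        rw [if_neg hn]
    rw [Finset.sum_congr rfl fun c _ => h1 c, ← Finset.mul_sum, h3, h2, hU p hp M]
    have h4 := hN U hUm
    have h5 : |(-1 : ℝ) ^ U.card * ((((J.filter (fun c : ℤ => ∀ ℓ ∈ U, E ℓ c)).card : ℕ) : ℝ) -
        (J.card : ℝ) * ∏ ℓ ∈ U, d ℓ)| ≤ ∏ ℓ ∈ U, M ℓ := by
      rw [abs_mul, abs_pow, abs_neg, abs_one, one_pow, one_mul]
      exact h4
    have h6 := (abs_le.1 h5).2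
    linarith
  have hsum : ∑ c ∈ J, ∏ j, trunc (k j) (P j) (e c) ≤
      (J.card : ℝ) * ∏ j, trunc (k j) (P j) d + ∏ j, trunc (k j) (P j) (fun i => - M i) := by
    rw [Finset.sum_congr rfl fun c _ => htr (e c), Finset.sum_comm, htr d, htr (fun i => - M i), Finset.mul_sum,
      ← Finset.sum_add_distrib]
    refine Finset.sum_le_sum fun p hp => (hone p hp).trans (le_of_eq ?_)
    simp only [neg_neg]
  refine hleft.trans (hsum.trans (add_le_add le_rfl ?_))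
  refine Finset.prod_le_prod (fun j _ => ?_) fun j _ => trunc_neg (k j) (P j) M (hM j)
  unfold trunc
  refine Finset.sum_nonneg fun S hS => Finset.prod_nonneg fun i hi => ?_
  rw [neg_neg]
  exact hM j i (Finset.mem_powerset.1 (Finset.mem_filter.1 hS).1 hi)

end TR
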