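import Pool.Agent.Lib.MP_021685_agTR.RD

/-! LEAF R6 (medium).  Exact divisibility by several primes.

PROOF.  Model: `single` and `pair` of `MP_021685_agTI/D2.lean` (the auxiliary theorems there are private: copy what you need: `D2_T`, `D2_mem`, `D2_card`).  CLAIM: for every finite set `S` of such primes, with `m = ∏_{ℓ ∈ S} ℓ²` there is a finite set `Rs` of residues mod `m` with `∏_{ℓ ∈ S} 2 (ℓ - 1)` elements such that
for all integers `c`: `(c : ZMod m) ∈ Rs` iff `Ex A D ℓ c` for all `ℓ ∈ S`.  Induction on `S`: `S = ∅`: `m = 1`, `Rs = univ`.  Step: `ZMod.chineseRemainder` for the coprime numbers `ℓ²` and `m` (as in `pair`), the product of `D2_T` (`2 (ℓ-1)` elements) and `Rs`.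
Then `TI.count_residues` (file D0) for the interval: `|N - |Rs| L/m| ≤ |Rs|`, `|Rs|/m = ∏ 2 (ℓ-1)/ℓ² = ∏ delt ℓ` and `|Rs| ≤ ∏ 2 ℓ`. -/

namespace TR

open TI

section R6a

variable {ℓ : ℕ}

/-- The reduction modulo `ℓ`. -/
private abbrev R6_pi (ℓ : ℕ) : ZMod (ℓ ^ 2) →+* ZMod ℓ := ZMod.castHom (dvd_pow_self ℓ two_ne_zero) (ZMod ℓ)

private theorem R6_surj (ℓ : ℕ) : Function.Surjective (R6_pi ℓ) :=
  ZMod.castHom_surjective (dvd_pow_self ℓ two_ne_zero)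

private theorem R6_unit [Fact ℓ.Prime] (x : ZMod (ℓ ^ 2)) (h : R6_pi ℓ x ≠ 0) : IsUnit x := by
  have hℓ := Fact.out (p := ℓ.Prime)
  have : NeZero ℓ := ⟨hℓ.ne_zero⟩
  have h1 : ((x.val : ℕ) : ZMod (ℓ ^ 2)) = x := ZMod.natCast_zmod_val x
  rw [← h1, ZMod.isUnit_iff_coprime]
  refine Nat.Coprime.pow_right 2 ?_
  rw [Nat.coprime_comm, hℓ.coprime_iff_not_dvd]
  intro h2
  apply h
  rw [← h1, map_natCast]
  exact (ZMod.natCast_eq_zero_iff _ _).mpr h2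

private theorem R6_ker [NeZero ℓ] (x : ZMod (ℓ ^ 2)) (h : R6_pi ℓ x = 0) :
    ∃ k : ZMod (ℓ ^ 2), x = (ℓ : ZMod (ℓ ^ 2)) * k := by
  have h1 : ((x.val : ℕ) : ZMod (ℓ ^ 2)) = x := ZMod.natCast_zmod_val x
  rw [← h1, map_natCast] at h
  obtain ⟨k, hk⟩ := (ZMod.natCast_eq_zero_iff _ _).mp h
  refine ⟨(k : ZMod (ℓ ^ 2)), ?_⟩
  rw [← h1, hk, Nat.cast_mul]

private theorem R6_mul [NeZero ℓ] (x y : ZMod (ℓ ^ 2)) (hx : R6_pi ℓ x = 0) (hy : R6_pi ℓ y = 0) :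
    x * y = 0 := by
  obtain ⟨k, rfl⟩ := R6_ker x hx
  obtain ⟨k', rfl⟩ := R6_ker y hy
  have h1 : (ℓ : ZMod (ℓ ^ 2)) * (ℓ : ZMod (ℓ ^ 2)) = 0 := by
    rw [← Nat.cast_mul, ← sq]
    exact (ZMod.natCast_eq_zero_iff _ _).mpr dvd_rfl
  linear_combination (k * k') * h1

private theorem R6_fib [NeZero ℓ] (y : ZMod ℓ) :
    (Finset.univ.filter fun z : ZMod (ℓ ^ 2) => R6_pi ℓ z = y).card = ℓ := by
  classical
  have h1 : ∀ y' : ZMod ℓ, (Finset.univ.filter fun z : ZMod (ℓ ^ 2) => R6_pi ℓ z = y').card =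
      (Finset.univ.filter fun z : ZMod (ℓ ^ 2) => R6_pi ℓ z = y).card := by
    intro y'
    exact AddMonoidHom.card_fiber_eq_of_mem_range (R6_pi ℓ).toAddMonoidHom (R6_surj ℓ y') (R6_surj ℓ y)
  have h2 := Finset.card_eq_sum_card_fiberwise (f := R6_pi ℓ) (s := (Finset.univ : Finset (ZMod (ℓ ^ 2))))
    (t := (Finset.univ : Finset (ZMod ℓ))) (fun _ _ => Finset.mem_coe.mpr (Finset.mem_univ _))
  rw [Finset.sum_congr rfl fun y' _ => h1 y', Finset.sum_const, Finset.card_univ, Finset.card_univ,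
    ZMod.card, ZMod.card, smul_eq_mul] at h2
  exact (Nat.eq_of_mul_eq_mul_left (NeZero.pos ℓ) ((sq ℓ).symm.trans h2)).symm

/-- The residues `z` with `ℓ` dividing `(z + A)² - D` exactly once. -/
private noncomputable def R6_T (A D : ℤ) (ℓ : ℕ) [NeZero ℓ] : Finset (ZMod (ℓ ^ 2)) :=
  Finset.univ.filter fun z => (R6_pi ℓ z + (A : ZMod ℓ)) ^ 2 = (D : ZMod ℓ) ∧
    ¬ (z + (A : ZMod (ℓ ^ 2))) ^ 2 = (D : ZMod (ℓ ^ 2))

private theorem R6_mem (A D : ℤ) [NeZero ℓ] (c : ℤ) : (c : ZMod (ℓ ^ 2)) ∈ R6_T A D ℓ ↔ Ex A D ℓ c := by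
  unfold R6_T Ex
  rw [Finset.mem_filter, map_intCast]
  have h1 : (ℓ : ℤ) ∣ (c + A) ^ 2 - D ↔ ((c : ZMod ℓ) + (A : ZMod ℓ)) ^ 2 = (D : ZMod ℓ) := by
    rw [← ZMod.intCast_zmod_eq_zero_iff_dvd]
    push_cast
    exact sub_eq_zero
  have h2 : (ℓ : ℤ) ^ 2 ∣ (c + A) ^ 2 - D ↔
      ((c : ZMod (ℓ ^ 2)) + (A : ZMod (ℓ ^ 2))) ^ 2 = (D : ZMod (ℓ ^ 2)) := by
    rw [← Nat.cast_pow, ← ZMod.intCast_zmod_eq_zero_iff_dvd]
    push_cast
    exact sub_eq_zero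
  rw [h1, h2]
  simp

private theorem R6_card (A D : ℤ) (hℓ : ℓ.Prime) [NeZero ℓ] (ho : Odd ℓ) (hD : ¬ (ℓ : ℤ) ∣ D)
    (hs : IsSquare ((D : ℤ) : ZMod ℓ)) : (R6_T A D ℓ).card = 2 * (ℓ - 1) := by
  classical
  have hF : Fact ℓ.Prime := ⟨hℓ⟩
  obtain ⟨μ, hμ⟩ := hs
  have hD0 : (D : ZMod ℓ) ≠ 0 := fun h => hD ((ZMod.intCast_zmod_eq_zero_iff_dvd _ _).mp h)
  have hμ0 : μ ≠ 0 := by
    rintro rfl
    rw [mul_zero] at hμ
    exact hD0 hμ
  have h2 : (2 : ZMod ℓ) ≠ 0 := by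
    have h3 : ((2 : ℕ) : ZMod ℓ) ≠ 0 := by
      intro h
      have h4 := (ZMod.natCast_eq_zero_iff _ _).mp h
      have h5 : ℓ = 2 := (Nat.prime_dvd_prime_iff_eq hℓ Nat.prime_two).mp h4
      rw [h5] at ho
      exact absurd ho (by decide)
    exact_mod_cast h3
  have h2μ : 2 * μ ≠ 0 := mul_ne_zero h2 hμ0
  -- a square root modulo `ℓ ^ 2`
  obtain ⟨m, hm, hmμ⟩ : ∃ m : ZMod (ℓ ^ 2), m ^ 2 = (D : ZMod (ℓ ^ 2)) ∧ R6_pi ℓ m = μ := by
    obtain ⟨m₀, hm₀⟩ := R6_surj ℓ μ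
    obtain ⟨u, hu⟩ := R6_unit (2 * m₀) (by rw [map_mul, hm₀, map_ofNat]; exact h2μ)
    have he : R6_pi ℓ (m₀ ^ 2 - (D : ZMod (ℓ ^ 2))) = 0 := by
      rw [map_sub, map_pow, map_intCast, hm₀, hμ]
      ring
    set e := m₀ ^ 2 - (D : ZMod (ℓ ^ 2)) with hedef
    have hee : e * e = 0 := R6_mul e e he he
    have huv : (2 * m₀) * (↑u⁻¹ : ZMod (ℓ ^ 2)) = 1 := by
      rw [← hu]
      exact Units.mul_inv u
    refine ⟨m₀ - e * (↑u⁻¹ : ZMod (ℓ ^ 2)), ?_, ?_⟩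
    · have h5 : (D : ZMod (ℓ ^ 2)) = m₀ ^ 2 - e := by
        rw [hedef]
        ring
      rw [h5]
      linear_combination (-e) * huv + (↑u⁻¹ : ZMod (ℓ ^ 2)) ^ 2 * hee
    · rw [map_sub, map_mul, he, zero_mul, sub_zero, hm₀]
  set a : ZMod (ℓ ^ 2) := (A : ZMod (ℓ ^ 2)) with ha
  have hπa : R6_pi ℓ a = (A : ZMod ℓ) := by
    rw [ha, map_intCast]
  set F1 := Finset.univ.filter fun z : ZMod (ℓ ^ 2) => R6_pi ℓ z = μ - (A : ZMod ℓ) with hF1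
  set F2 := Finset.univ.filter fun z : ZMod (ℓ ^ 2) => R6_pi ℓ z = -μ - (A : ZMod ℓ) with hF2
  have e1 : ∀ z, R6_pi ℓ z = μ - (A : ZMod ℓ) → ((z + a) ^ 2 = (D : ZMod (ℓ ^ 2)) ↔ z = m - a) := by
    intro z hz
    constructor
    · intro h
      have hu : IsUnit (z + a + m) := by
        refine R6_unit _ ?_
        rw [map_add, map_add, hz, hπa, hmμ]
        have : μ - (A : ZMod ℓ) + (A : ZMod ℓ) + μ = 2 * μ := by ring
        rw [this]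
        exact h2μ
      have h0 : (z + a + m) * (z + a - m) = 0 := by
        rw [← hm] at h
        linear_combination h
      have h1 := (hu.mul_right_eq_zero).mp h0
      linear_combination h1
    · rintro rfl
      rw [← hm]
      ring
  have e2 : ∀ z, R6_pi ℓ z = -μ - (A : ZMod ℓ) → ((z + a) ^ 2 = (D : ZMod (ℓ ^ 2)) ↔ z = -m - a) := by
    intro z hz
    constructor
    · intro h
      have hu : IsUnit (z + a - m) := by
        refine R6_unit _ ?_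
        rw [map_sub, map_add, hz, hπa, hmμ]
        have : -μ - (A : ZMod ℓ) + (A : ZMod ℓ) - μ = -(2 * μ) := by ring
        rw [this]
        exact neg_ne_zero.mpr h2μ
      have h0 : (z + a - m) * (z + a + m) = 0 := by
        rw [← hm] at h
        linear_combination h
      have h1 := (hu.mul_right_eq_zero).mp h0
      linear_combination h1
    · rintro rfl
      rw [← hm]
      ring
  have hT : R6_T A D ℓ = F1.erase (m - a) ∪ F2.erase (-m - a) := by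
    ext z
    unfold R6_T
    rw [Finset.mem_filter, Finset.mem_union, Finset.mem_erase, Finset.mem_erase, hF1, hF2,
      Finset.mem_filter, Finset.mem_filter]
    have h3 : (R6_pi ℓ z + (A : ZMod ℓ)) ^ 2 = (D : ZMod ℓ) ↔
        R6_pi ℓ z = μ - (A : ZMod ℓ) ∨ R6_pi ℓ z = -μ - (A : ZMod ℓ) := by
      rw [hμ, ← sq, sq_eq_sq_iff_eq_or_eq_neg]
      refine or_congr ?_ ?_
      · exact eq_sub_iff_add_eq.symm
      · exact eq_sub_iff_add_eq.symm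
    rw [h3]
    constructor
    · rintro ⟨-, h | h, h4⟩
      · exact Or.inl ⟨fun h5 => h4 ((e1 z h).mpr h5), Finset.mem_univ _, h⟩
      · exact Or.inr ⟨fun h5 => h4 ((e2 z h).mpr h5), Finset.mem_univ _, h⟩
    · rintro (⟨h4, -, h⟩ | ⟨h4, -, h⟩)
      · exact ⟨Finset.mem_univ _, Or.inl h, fun h5 => h4 ((e1 z h).mp h5)⟩
      · exact ⟨Finset.mem_univ _, Or.inr h, fun h5 => h4 ((e2 z h).mp h5)⟩
  have hdis : Disjoint (F1.erase (m - a)) (F2.erase (-m - a)) := by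
    rw [Finset.disjoint_left]
    intro z hz1 hz2
    have h3 := (Finset.mem_filter.mp (Finset.mem_of_mem_erase hz1)).2
    have h4 := (Finset.mem_filter.mp (Finset.mem_of_mem_erase hz2)).2
    apply h2μ
    rw [h3] at h4
    linear_combination h4
  have hm1 : m - a ∈ F1 := by
    rw [hF1, Finset.mem_filter]
    exact ⟨Finset.mem_univ _, by rw [map_sub, hmμ, hπa]⟩
  have hm2 : -m - a ∈ F2 := by
    rw [hF2, Finset.mem_filter]
    exact ⟨Finset.mem_univ _, by rw [map_sub, map_neg, hmμ, hπa]⟩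
  rw [hT, Finset.card_union_of_disjoint hdis, Finset.card_erase_of_mem hm1, Finset.card_erase_of_mem hm2,
    R6_fib, R6_fib]
  ring

private theorem R6_cast (hℓ : ℓ.Prime) {n : ℕ} (h : n = 2 * (ℓ - 1)) : (n : ℝ) = 2 * ((ℓ : ℝ) - 1) := by
  rw [h]
  push_cast [Nat.cast_sub hℓ.one_lt.le]
  ring

end R6a

private theorem R6_claim (A D : ℤ) (S : Finset ℕ) : (∀ ℓ ∈ S, ℓ.Prime ∧ Odd ℓ ∧ ¬ (ℓ : ℤ) ∣ D ∧
    IsSquare ((D : ℤ) : ZMod ℓ)) → ∃ (m : ℕ) (Rs : Finset (ZMod m)), m = ∏ ℓ ∈ S, ℓ ^ 2 ∧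
      (Rs.card : ℝ) = ∏ ℓ ∈ S, (2 * ((ℓ : ℝ) - 1)) ∧ ∀ c : ℤ, ((c : ℤ) : ZMod m) ∈ Rs ↔ ∀ ℓ ∈ S, Ex A D ℓ c := by
  classical
  induction S using Finset.induction_on with
  | empty =>
    intro _
    refine ⟨1, Finset.univ, by rw [Finset.prod_empty], ?_, fun c => ?_⟩
    · rw [Finset.prod_empty, Finset.card_univ, ZMod.card, Nat.cast_one]
    · exact ⟨fun _ ℓ hℓ => absurd hℓ (Finset.notMem_empty ℓ), fun _ => Finset.mem_univ _⟩
  | insert p S hp ih =>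
    intro hS
    obtain ⟨m, Rs, hm, hcard, hmem⟩ := ih fun ℓ hℓ => hS ℓ (Finset.mem_insert_of_mem hℓ)
    obtain ⟨hpp, hpo, hpD, hps⟩ := hS p (Finset.mem_insert_self p S)
    have : NeZero p := ⟨hpp.ne_zero⟩
    have hcop : Nat.Coprime (p ^ 2) m := by
      rw [hm]
      refine Nat.Coprime.prod_right fun ℓ hℓ => ?_
      refine Nat.Coprime.pow 2 2 ((Nat.coprime_primes hpp (hS ℓ (Finset.mem_insert_of_mem hℓ)).1).mpr ?_)
      rintro rfl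
      exact hp hℓ
    have hc := R6_cast hpp (R6_card A D hpp hpo hpD hps)
    let χ := ZMod.chineseRemainder hcop
    let Rs' : Finset (ZMod (p ^ 2 * m)) := (R6_T A D p ×ˢ Rs).map χ.symm.toEquiv.toEmbedding
    have hRs : ∀ z, z ∈ Rs' ↔ χ z ∈ R6_T A D p ×ˢ Rs := by
      intro z
      exact Finset.mem_map_equiv
    refine ⟨p ^ 2 * m, Rs', ?_, ?_, fun c => ?_⟩
    · rw [Finset.prod_insert hp, hm]
    · rw [Finset.card_map, Finset.card_product, Nat.cast_mul, hc, hcard, Finset.prod_insert hp]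
    · rw [hRs, Finset.mem_product]
      have h3 : χ (c : ZMod (p ^ 2 * m)) = ((c : ZMod (p ^ 2)), (c : ZMod m)) := by
        rw [map_intCast]
        rfl
      rw [h3, R6_mem, hmem, Finset.forall_mem_insert]

open Classical in
theorem multi (A D : ℤ) (S : Finset ℕ) (hS : ∀ ℓ ∈ S, ℓ.Prime ∧ Odd ℓ ∧ ¬ (ℓ : ℤ) ∣ D ∧
    IsSquare ((D : ℤ) : ZMod ℓ)) (lo hi : ℤ) :
    |((((Finset.Icc lo hi).filter (fun c : ℤ => ∀ ℓ ∈ S, Ex A D ℓ c)).card : ℕ) : ℝ) -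
      ((Finset.Icc lo hi).card : ℝ) * ∏ ℓ ∈ S, delt ℓ| ≤ ∏ ℓ ∈ S, (2 * (ℓ : ℝ)) := by
  classical
  obtain ⟨m, Rs, hm, hcard, hmem⟩ := R6_claim A D S hS
  have hm0 : 0 < m := by
    rw [hm]
    exact Finset.prod_pos fun ℓ hℓ => pow_pos (hS ℓ hℓ).1.pos 2
  have h := count_residues hm0 Rs lo hi
  have h1 : ((Finset.Icc lo hi).filter (fun c : ℤ => ∀ ℓ ∈ S, Ex A D ℓ c)).card =
      ((Finset.Icc lo hi).filter (fun c : ℤ => ((c : ℤ) : ZMod m) ∈ Rs)).card := by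
    congr 1
    ext c
    rw [Finset.mem_filter, Finset.mem_filter, hmem]
  rw [h1]
  have h2 : (Rs.card : ℝ) * ((Finset.Icc lo hi).card : ℝ) / (m : ℝ) =
      ((Finset.Icc lo hi).card : ℝ) * ∏ ℓ ∈ S, delt ℓ := by
    have h3 : (m : ℝ) = ∏ ℓ ∈ S, (ℓ : ℝ) ^ 2 := by
      rw [hm]
      push_cast
      rfl
    have h4 : ∏ ℓ ∈ S, delt ℓ = (∏ ℓ ∈ S, (2 * ((ℓ : ℝ) - 1))) / ∏ ℓ ∈ S, (ℓ : ℝ) ^ 2 := by
      rw [← Finset.prod_div_distrib]
      rfl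
    rw [h4, hcard, h3]
    ring
  rw [h2] at h
  refine h.trans ?_
  rw [hcard]
  refine Finset.prod_le_prod (fun ℓ hℓ => ?_) fun ℓ hℓ => ?_
  · have h5 : (1 : ℝ) ≤ (ℓ : ℝ) := by exact_mod_cast (hS ℓ hℓ).1.one_lt.le
    linarith
  · linarith

end TR
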