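import Mathlib

/-! LEAF R7 (easy+).  The main term.

PROOF.  Let `m_j = 2 (t - j) + 1` (`j < t`).  For `0 ≤ s ≤ B`: `s^m/m! ≤ exp (4 s)/4^m` (`(4 s)^m/m! ≤ exp (4 s)`, `Real.pow_div_factorial_le_exp`), so `exp (-s) + s^m/m! ≤ exp (-s) (1 + exp (5 B)/4^m) ≤ exp (-s) exp (exp (5 B)/4^m)` (`Real.add_one_le_exp`).
Product over `j : Fin t`: `≤ exp (- ∑ s_j) exp (exp (5 B) ∑_j 1/4^(m_j))` and `∑_j 1/4^(m_j) ≤ ∑_{i ≥ 1} 1/4^(2i+1) ≤ 1` (geometric; e.g. by induction on `t` after reversing the order, `Fin.rev`, or bound `1/4^(m_j) ≤ 1/2^(t-j)` and use `∑_{i < t} 1/2^(t-i) ≤ 1`).  `C = exp (exp (5 B))`. -/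

namespace TR

private theorem R7_sum (t : ℕ) : ∑ j : Fin t, (1 / 4 : ℝ) ^ (2 * (t - (j : ℕ)) + 1) ≤ 1 - (1 / 4) ^ t := by
  induction t with
  | zero => simp
  | succ t ih =>
    rw [Fin.sum_univ_succ]
    have h1 : ∀ j : Fin t, (1 / 4 : ℝ) ^ (2 * (t + 1 - ((Fin.succ j : Fin (t + 1)) : ℕ)) + 1) =
        (1 / 4 : ℝ) ^ (2 * (t - (j : ℕ)) + 1) := by
      intro j
      have h2 : t + 1 - ((Fin.succ j : Fin (t + 1)) : ℕ) = t - (j : ℕ) := by
        rw [Fin.val_succ]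
        omega
      rw [h2]
    rw [Finset.sum_congr rfl fun j _ => h1 j]
    have h3 : (1 / 4 : ℝ) ^ (2 * (t + 1 - ((0 : Fin (t + 1)) : ℕ)) + 1) = (1 / 4) ^ t * ((1 / 4) ^ t * (1 / 64)) := by
      rw [Fin.val_zero]
      have h4 : 2 * (t + 1 - 0) + 1 = t + (t + 3) := by omega
      rw [h4, pow_add, pow_add]
      norm_num
    rw [h3, pow_succ]
    have h5 : (1 / 4 : ℝ) ^ t ≤ 1 := pow_le_one₀ (by norm_num) (by norm_num)
    have h6 : (0 : ℝ) < (1 / 4) ^ t := by positivity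
    nlinarith

private theorem R7_one {B s : ℝ} (hs : 0 ≤ s) (hB : s ≤ B) (m : ℕ) :
    Real.exp (- s) + s ^ m / (m.factorial : ℝ) ≤ Real.exp (- s) * Real.exp (Real.exp (5 * B) * (1 / 4) ^ m) := by
  have h1 := Real.pow_div_factorial_le_exp (4 * s) (by linarith) m
  have h2 : s ^ m / (m.factorial : ℝ) ≤ Real.exp (4 * s) * (1 / 4) ^ m := by
    have h3 : s ^ m / (m.factorial : ℝ) = ((4 * s) ^ m / (m.factorial : ℝ)) * (1 / 4) ^ m := by
      rw [mul_pow, one_div, inv_pow]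
      field_simp
    rw [h3]
    exact mul_le_mul_of_nonneg_right h1 (by positivity)
  have h4 : Real.exp (4 * s) = Real.exp (- s) * Real.exp (5 * s) := by
    rw [← Real.exp_add]
    congr 1
    ring
  have h5 : Real.exp (5 * s) ≤ Real.exp (5 * B) := Real.exp_le_exp.2 (by linarith)
  have h6 : Real.exp (5 * B) * (1 / 4) ^ m + 1 ≤ Real.exp (Real.exp (5 * B) * (1 / 4) ^ m) :=
    Real.add_one_le_exp _
  have h7 : 0 < Real.exp (- s) := Real.exp_pos _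
  calc Real.exp (- s) + s ^ m / (m.factorial : ℝ) ≤ Real.exp (- s) + Real.exp (4 * s) * (1 / 4) ^ m := by linarith
    _ = Real.exp (- s) * (Real.exp (5 * s) * (1 / 4) ^ m + 1) := by rw [h4]; ring
    _ ≤ Real.exp (- s) * (Real.exp (5 * B) * (1 / 4) ^ m + 1) := by
        apply mul_le_mul_of_nonneg_left _ h7.le
        have := mul_le_mul_of_nonneg_right h5 (by positivity : (0 : ℝ) ≤ (1 / 4) ^ m)
        linarith
    _ ≤ Real.exp (- s) * Real.exp (Real.exp (5 * B) * (1 / 4) ^ m) := mul_le_mul_of_nonneg_left h6 h7.le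

theorem prod_main (B : ℝ) (hB : 0 ≤ B) : ∃ C : ℝ, 0 ≤ C ∧ ∀ (t : ℕ) (s : Fin t → ℝ), (∀ j, 0 ≤ s j) → (∀ j, s j ≤ B) →
    ∏ j : Fin t, (Real.exp (- s j) + s j ^ (2 * (t - (j : ℕ)) + 1) / ((2 * (t - (j : ℕ)) + 1).factorial : ℝ)) ≤
      C * Real.exp (- ∑ j, s j) := by
  refine ⟨Real.exp (Real.exp (5 * B)), (Real.exp_pos _).le, fun t s h0 h1 => ?_⟩
  calc ∏ j : Fin t, (Real.exp (- s j) + s j ^ (2 * (t - (j : ℕ)) + 1) / ((2 * (t - (j : ℕ)) + 1).factorial : ℝ)) ≤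
        ∏ j : Fin t, (Real.exp (- s j) * Real.exp (Real.exp (5 * B) * (1 / 4) ^ (2 * (t - (j : ℕ)) + 1))) := by
        refine Finset.prod_le_prod (fun j _ => ?_) fun j _ => R7_one (h0 j) (h1 j) _
        have h2 := Real.exp_pos (- s j)
        have h3 : 0 ≤ s j ^ (2 * (t - (j : ℕ)) + 1) / ((2 * (t - (j : ℕ)) + 1).factorial : ℝ) :=
          div_nonneg (pow_nonneg (h0 j) _) (by positivity)
        linarith
    _ = Real.exp (- ∑ j, s j) *
        Real.exp (Real.exp (5 * B) * ∑ j : Fin t, (1 / 4 : ℝ) ^ (2 * (t - (j : ℕ)) + 1)) := by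
        rw [Finset.prod_mul_distrib, ← Real.exp_sum, ← Real.exp_sum, Finset.mul_sum, Finset.sum_neg_distrib]
    _ ≤ Real.exp (- ∑ j, s j) * Real.exp (Real.exp (5 * B)) := by
        apply mul_le_mul_of_nonneg_left _ (Real.exp_pos _).le
        apply Real.exp_le_exp.2
        have h2 := R7_sum t
        have h3 : (0 : ℝ) < (1 / 4) ^ t := by positivity
        have h4 := Real.exp_pos (5 * B)
        nlinarith
    _ = Real.exp (Real.exp (5 * B)) * Real.exp (- ∑ j, s j) := mul_comm _ _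

end TR
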