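import Mathlib

/-! LEAF R8 (easy+, 2 theorems).  The error term, and the choice of the number of blocks.

PROOF.  (`prod_err`) the exponent of `3` is `∑_{j < t} 2 (t - j) = t (t+1)`, the exponent of `a` is `∑_{j < t} 2^(j+1) 2 2 (t-j) = 8 ∑_{j < t} (t-j) 2^j = 8 (2^(t+1) - t - 2) ≤ 16 2^t`, and `a ≥ 1`.  (Induction on `t`: from `t` to `t + 1` the factors with `j < t` are multiplied by the squares, which add
`2 t` to the exponent of `3` and `∑_{j<t} 4 2^(j+1) = 8 (2^t - 1)` to the exponent of `a`, and the new factor `j = t` has the exponents `2` and `8 2^t`; or write everything as powers, `Finset.prod_pow_eq_pow_sum`, and prove the two sums by induction over `Finset.range`.)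
(`choice`) Let `y = g/(27000 log g)`, which tends to infinity; `t = Nat.log 2 ⌊y⌋₊`, so `2^t ≤ y < 2^(t+1)` (`⌊y⌋₊ ≥ 1`; `y < ⌊y⌋₊ + 1 ≤ 2^(t+1)`).  Then `2^t 3 log g ≤ g/9000`; `(g³)^(16 2^t) = exp (16 2^t 3 log g) ≤ exp (16 g/9000)`; `2^t ≤ g` gives `t log 2 ≤ log g`, `t ≤ 2 log g`, `3^(t(t+1)) ≤ exp (2 t (t+1)) ≤
exp (4 log g (2 log g + 1)) ≤ exp (g/1000)` for large `g`; `exp (g/1000 + 16 g/9000) ≤ exp (4 g/1001) ≤ (1001/1000)^(4 g)` (`log (1001/1000) ≥ 1/1001`, `Real.one_sub_inv_le_log_of_pos`).  Second: `exp (g/9000) ≤ exp (g/1001)`.  Third: `1/2^t < 2/y = 54000 log g/g`.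
(For the existence of `g₀`: `Real.isLittleO_log_id_atTop`, `isLittleO_log_rpow_atTop`, or the explicit inequality `log g ≤ 4 g^(1/4)`.) -/

namespace TR

private theorem R8_s1 (t : ℕ) : ∑ j ∈ Finset.range t, 2 * (t - j) = t * (t + 1) := by
  induction t with
  | zero => rfl
  | succ t ih =>
    rw [Finset.sum_range_succ', Finset.sum_congr rfl fun j _ => by rw [Nat.add_sub_add_right], ih]
    rw [Nat.sub_zero]
    ring

private theorem R8_s2 (t : ℕ) :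
    ∑ j ∈ Finset.range t, 2 ^ (j + 1) * 2 * (2 * (t - j)) + 8 * t + 16 = 16 * 2 ^ t := by
  induction t with
  | zero => rfl
  | succ t ih =>
    have h1 : ∀ j ∈ Finset.range t, 2 ^ (j + 1 + 1) * 2 * (2 * (t + 1 - (j + 1))) =
        2 * (2 ^ (j + 1) * 2 * (2 * (t - j))) := by
      intro j _
      rw [Nat.add_sub_add_right, pow_succ 2 (j + 1)]
      ring
    rw [Finset.sum_range_succ', Finset.sum_congr rfl h1, ← Finset.mul_sum, Nat.sub_zero, pow_succ 2 t]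
    omega

private theorem R8_g0 : ∃ g₀ : ℕ, 3 ≤ g₀ ∧ ∀ g : ℕ, g₀ ≤ g → Real.log g ^ 2 ≤ g / 27000 := by
  have h1 := (Real.isLittleO_pow_log_id_atTop (n := 2)).def (show (0 : ℝ) < 1 / 27000 by norm_num)
  have h2 := (tendsto_natCast_atTop_atTop (R := ℝ)).eventually h1
  obtain ⟨a, ha⟩ := Filter.eventually_atTop.1 h2
  refine ⟨max a 3, le_max_right _ _, fun g hg => ?_⟩
  have h3 := ha g ((le_max_left _ _).trans hg)
  rw [Real.norm_eq_abs, Real.norm_eq_abs, id, Nat.abs_cast] at h3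
  have h4 := (le_abs_self _).trans h3
  linarith

theorem prod_err (t : ℕ) (a : ℝ) (ha : 1 ≤ a) :
    ∏ j : Fin t, (3 * (a ^ 2 ^ ((j : ℕ) + 1)) ^ 2) ^ (2 * (t - (j : ℕ))) ≤ 3 ^ (t * (t + 1)) * a ^ (16 * 2 ^ t) := by
  rw [← Finset.prod_range (fun j => (3 * (a ^ 2 ^ (j + 1)) ^ 2) ^ (2 * (t - j)))]
  have h1 : ∀ j ∈ Finset.range t, (3 * (a ^ 2 ^ (j + 1)) ^ 2) ^ (2 * (t - j)) =
      3 ^ (2 * (t - j)) * a ^ (2 ^ (j + 1) * 2 * (2 * (t - j))) := by
    intro j _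
    rw [mul_pow, ← pow_mul, ← pow_mul, mul_assoc (2 ^ (j + 1)) 2]
  rw [Finset.prod_congr rfl h1, Finset.prod_mul_distrib, Finset.prod_pow_eq_pow_sum, Finset.prod_pow_eq_pow_sum,
    R8_s1]
  refine mul_le_mul_of_nonneg_left (pow_le_pow_right₀ ha ?_) (by positivity)
  have := R8_s2 t
  omega

theorem choice : ∃ g₀ : ℕ, 3 ≤ g₀ ∧ ∀ g : ℕ, g₀ ≤ g → ∃ t : ℕ,
    (3 : ℝ) ^ (t * (t + 1)) * ((g : ℝ) ^ 3) ^ (16 * 2 ^ t) ≤ (1001 / 1000) ^ (4 * g) ∧
    ((g : ℝ) ^ 3) ^ 2 ^ t ≤ (1001 / 1000) ^ g ∧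
    (1 : ℝ) / 2 ^ t ≤ 54000 * (Real.log g / g) := by
  obtain ⟨g₀, h3, hg₀⟩ := R8_g0
  refine ⟨g₀, h3, fun g hg => ?_⟩
  obtain ⟨L, hL⟩ : ∃ L : ℝ, L = Real.log g := ⟨_, rfl⟩
  have hL2 : L ^ 2 ≤ g / 27000 := by
    rw [hL]
    exact hg₀ g hg
  have hg3 : (3 : ℝ) ≤ g := by exact_mod_cast h3.trans hg
  have hg0 : (0 : ℝ) < g := by linarith
  have hL1 : 1 ≤ L := by
    rw [hL, Real.le_log_iff_exp_le hg0]
    have := Real.exp_one_lt_d9
    linarith
  have hLL : L ≤ L ^ 2 := by nlinarith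
  obtain ⟨y, hy⟩ : ∃ y : ℝ, y = g / (27000 * L) := ⟨_, rfl⟩
  have hyL : y * L = g / 27000 := by
    rw [hy]
    field_simp
  have hy1 : 1 ≤ y := by
    rw [hy, one_le_div₀ (by positivity)]
    linarith
  have hyg : y ≤ g := by
    have h1 : y ≤ y * L := le_mul_of_one_le_right (by linarith) hL1
    linarith
  have hf : ⌊y⌋₊ ≠ 0 := by
    have := (Nat.one_le_floor_iff y).2 hy1
    omega
  refine ⟨Nat.log 2 ⌊y⌋₊, ?_⟩
  obtain ⟨t, ht⟩ : ∃ t : ℕ, t = Nat.log 2 ⌊y⌋₊ := ⟨_, rfl⟩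
  have h1 : (2 : ℝ) ^ t ≤ y := by
    have h2 : 2 ^ t ≤ ⌊y⌋₊ := by
      rw [ht]
      exact Nat.pow_log_le_self 2 hf
    calc (2 : ℝ) ^ t = ((2 ^ t : ℕ) : ℝ) := by push_cast; rfl
      _ ≤ (⌊y⌋₊ : ℝ) := by exact_mod_cast h2
      _ ≤ y := Nat.floor_le (by linarith)
  have h2 : y < 2 ^ (t + 1) := by
    have h4 : ⌊y⌋₊ < 2 ^ (t + 1) := by
      rw [ht]
      exact Nat.lt_pow_succ_log_self (by norm_num) _
    calc y < (⌊y⌋₊ : ℝ) + 1 := Nat.lt_floor_add_one y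
      _ ≤ ((2 ^ (t + 1) : ℕ) : ℝ) := by exact_mod_cast h4
      _ = 2 ^ (t + 1) := by push_cast; rfl
  rw [← ht]
  have h5 : (2 : ℝ) ^ t * L ≤ g / 27000 := by
    rw [← hyL]
    exact mul_le_mul_of_nonneg_right h1 (by linarith)
  have hlog2 : (1 / 2 : ℝ) ≤ Real.log 2 := by
    have := Real.log_two_gt_d9
    linarith
  have h6 : (t : ℝ) ≤ 2 * L := by
    have h7 : Real.log ((2 : ℝ) ^ t) ≤ Real.log g := Real.log_le_log (by positivity) (h1.trans hyg)
    rw [Real.log_pow, ← hL] at h7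
    have h8 : (t : ℝ) * (1 / 2) ≤ t * Real.log 2 := mul_le_mul_of_nonneg_left hlog2 (Nat.cast_nonneg t)
    linarith
  have h9 : Real.log 3 ≤ 2 := by
    have := Real.log_le_sub_one_of_pos (show (0 : ℝ) < 3 by norm_num)
    linarith
  have h90 : 0 ≤ Real.log 3 := Real.log_nonneg (by norm_num)
  have h10 : (1 / 1001 : ℝ) ≤ Real.log (1001 / 1000) := by
    have := Real.one_sub_inv_le_log_of_pos (show (0 : ℝ) < 1001 / 1000 by norm_num)
    norm_num at this ⊢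
    linarith
  have h11 : (t : ℝ) * (t + 1) * Real.log 3 ≤ 12 * L ^ 2 := by
    have h12 : (t : ℝ) * (t + 1) ≤ 2 * L * (2 * L + 1) :=
      mul_le_mul h6 (by linarith) (by positivity) (by linarith)
    have h13 : (t : ℝ) * (t + 1) * Real.log 3 ≤ 2 * L * (2 * L + 1) * 2 :=
      mul_le_mul h12 h9 h90 (by positivity)
    nlinarith
  refine ⟨?_, ?_, ?_⟩
  · rw [← Real.log_le_log_iff (by positivity) (by positivity), Real.log_mul (by positivity) (by positivity),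
      Real.log_pow, Real.log_pow, Real.log_pow, Real.log_pow, ← hL]
    push_cast
    have h14 : (4 : ℝ) * g * (1 / 1001) ≤ 4 * g * Real.log (1001 / 1000) :=
      mul_le_mul_of_nonneg_left h10 (by positivity)
    have h15 : 16 * (2 : ℝ) ^ t * (3 * L) = 48 * (2 ^ t * L) := by ring
    rw [h15]
    linarith
  · rw [← Real.log_le_log_iff (by positivity) (by positivity), Real.log_pow, Real.log_pow, Real.log_pow, ← hL]
    push_cast
    have h14 : (g : ℝ) * (1 / 1001) ≤ g * Real.log (1001 / 1000) :=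
      mul_le_mul_of_nonneg_left h10 (by positivity)
    have h15 : (2 : ℝ) ^ t * (3 * L) = 3 * (2 ^ t * L) := by ring
    rw [h15]
    linarith
  · rw [← hL, div_le_iff₀ (by positivity)]
    have h16 : g / 27000 ≤ 2 ^ (t + 1) * L := by
      rw [← hyL]
      exact mul_le_mul_of_nonneg_right h2.le (by linarith)
    have h17 : 54000 * (L / g) * 2 ^ t = 27000 * (2 ^ (t + 1) * L) / g := by
      rw [pow_succ]
      ring
    rw [h17, le_div_iff₀ hg0]
    linarith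

end TR
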