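import Pool.Agent.Lib.MP_021685_agTR.R3
import Pool.Agent.Lib.MP_021685_agTR.R4
import Pool.Agent.Lib.MP_021685_agTR.R7

/-! LEAF R9a (easy+).  The main term of the sieve.

PROOF.  `B` from `dens_up q`, `C₁` from `dens_low q hq`, `C₂` from `prod_main B`; `s j = ∑_{ℓ ∈ blk q g Z j} delt ℓ`, `0 ≤ s j ≤ B` (`0 ≤ delt ℓ ≤ 1` for `ℓ ≥ 1`: `D3_delt` in `MP_021685_agTI/D3.lean`, private).  With the even number `k = 2 (t - j)`, `trunc_bounds`: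
`0 ≤ ∏ (1 - delt ℓ) ≤ trunc k (blk q g Z j) delt ≤ ∏ (1 - delt ℓ) + (s j)^(k+1)/(k+1)! ≤ exp (- s j) + (s j)^(k+1)/(k+1)!` (`1 - x ≤ exp (-x)`: `Real.add_one_le_exp`, `Finset.prod_le_prod`, `Real.exp_sum`), so by `Finset.prod_le_prod` and `prod_main`:
`∏_j trunc .. ≤ C₂ exp (- ∑ s j) ≤ C₂ exp (C₁ + 2 K) exp (- t log 2) = C₂ exp (C₁ + 2 K)/2^t`. -/

namespace TR

open TI

private theorem R9a_delt {ℓ : ℕ} (h : 1 ≤ ℓ) : 0 ≤ delt ℓ ∧ delt ℓ ≤ 1 := by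
  have h1 : (1 : ℝ) ≤ ℓ := by exact_mod_cast h
  have h0 : (0 : ℝ) < ℓ := by linarith
  unfold delt
  constructor
  · have : (0 : ℝ) ≤ (ℓ : ℝ) - 1 := by linarith
    positivity
  · rw [div_le_one (by positivity)]
    nlinarith [sq_nonneg ((ℓ : ℝ) - 1)]

private theorem R9a_mem {q g j ℓ : ℕ} {Z : Finset ℕ} (h : ℓ ∈ blk q g Z j) : 1 ≤ ℓ := by
  unfold blk at h
  have h1 := (Finset.mem_sdiff.1 h).1
  rw [mem_WP] at h1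
  exact h1.1.1.one_le

theorem main_term (q : ℕ) (hq : 1 ≤ q) (K : ℝ) (hK : 0 ≤ K) : ∃ C : ℝ, 0 ≤ C ∧ ∀ g : ℕ, 2 ≤ g →
    ∀ (Z : Finset ℕ) (t : ℕ), (Z.card : ℝ) ≤ K * (g : ℝ) ^ 2 →
      ∏ j : Fin t, trunc (2 * (t - (j : ℕ))) (blk q g Z (j : ℕ)) delt ≤ C * (1 / 2 ^ t) := by
  obtain ⟨B, hB0, hB⟩ := dens_up q
  obtain ⟨C₁, hC₁, h₁⟩ := dens_low q hq
  obtain ⟨C₂, hC₂, h₂⟩ := prod_main B hB0
  refine ⟨C₂ * Real.exp (C₁ + 2 * K), by positivity, ?_⟩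
  intro g hg Z t hZ
  have hs0 : ∀ j : Fin t, 0 ≤ ∑ ℓ ∈ blk q g Z (j : ℕ), delt ℓ := fun j =>
    Finset.sum_nonneg fun ℓ hℓ => (R9a_delt (R9a_mem hℓ)).1
  have hsB : ∀ j : Fin t, ∑ ℓ ∈ blk q g Z (j : ℕ), delt ℓ ≤ B := fun j => hB g hg Z j
  have hev : ∀ j : Fin t, (-1 : ℝ) ^ (2 * (t - (j : ℕ))) = 1 := fun j => Even.neg_one_pow ⟨t - (j : ℕ), by ring⟩
  have hb : ∀ j : Fin t, _ := fun j : Fin t => trunc_bounds (2 * (t - (j : ℕ))) (blk q g Z (j : ℕ)) delt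
    (fun ℓ hℓ => (R9a_delt (R9a_mem hℓ)).1) (fun ℓ hℓ => (R9a_delt (R9a_mem hℓ)).2)
  have hp0 : ∀ j : Fin t, 0 ≤ ∏ ℓ ∈ blk q g Z (j : ℕ), (1 - delt ℓ) := fun j =>
    Finset.prod_nonneg fun ℓ hℓ => by linarith [(R9a_delt (R9a_mem hℓ)).2]
  have hp1 : ∀ j : Fin t, ∏ ℓ ∈ blk q g Z (j : ℕ), (1 - delt ℓ) ≤
      Real.exp (- ∑ ℓ ∈ blk q g Z (j : ℕ), delt ℓ) := by
    intro j
    rw [← Finset.sum_neg_distrib, Real.exp_sum]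
    refine Finset.prod_le_prod (fun ℓ hℓ => by linarith [(R9a_delt (R9a_mem hℓ)).2]) fun ℓ _ => ?_
    have := Real.add_one_le_exp (- delt ℓ)
    linarith
  have hle : ∏ j : Fin t, trunc (2 * (t - (j : ℕ))) (blk q g Z (j : ℕ)) delt ≤
      ∏ j : Fin t, (Real.exp (- ∑ ℓ ∈ blk q g Z (j : ℕ), delt ℓ) +
        (∑ ℓ ∈ blk q g Z (j : ℕ), delt ℓ) ^ (2 * (t - (j : ℕ)) + 1) /
          ((2 * (t - (j : ℕ)) + 1).factorial : ℝ)) := by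
    refine Finset.prod_le_prod (fun j _ => ?_) fun j _ => ?_
    · have h := (hb j).1
      rw [hev j, one_mul] at h
      linarith [hp0 j]
    · have h := (hb j).2
      rw [hev j, one_mul] at h
      linarith [hp1 j]
  refine hle.trans ((h₂ t _ hs0 hsB).trans ?_)
  have hl := h₁ g hg t Z K hK hZ
  have he : Real.exp (- ∑ j : Fin t, ∑ ℓ ∈ blk q g Z (j : ℕ), delt ℓ) ≤
      Real.exp (C₁ + 2 * K) * (1 / 2 ^ t) := by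
    have h3 : (1 : ℝ) / 2 ^ t = Real.exp (- (t * Real.log 2)) := by
      rw [Real.exp_neg, Real.exp_nat_mul, Real.exp_log (by norm_num), one_div]
    rw [h3, ← Real.exp_add]
    exact Real.exp_le_exp.2 (by linarith)
  rw [mul_assoc]
  exact mul_le_mul_of_nonneg_left he hC₂

end TR
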