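import Pool.Agent.Lib.MP_021685_agTR.RD
import Pool.Agent.Lib.MP_021685_agTR.R8

/-! LEAF R9b (easy+).  The error term of the sieve.

PROOF.  With `b = (g³)^(2^(j+1)) ≥ 1`: the block is contained in `Icc 1 b`, so it has at most `b` members, all `≤ b`, and `∑ 2 ℓ ≤ 2 b²`, `1 + 2 b² ≤ 3 b²`.  `Finset.prod_le_prod`, `pow_le_pow_left₀`, then `prod_err` with `a = g³`. -/

namespace TR

private theorem R9b_one (q g : ℕ) (hg : 1 ≤ g) (Z : Finset ℕ) (j : ℕ) :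
    1 + ∑ ℓ ∈ blk q g Z j, (2 * (ℓ : ℝ)) ≤ 3 * (((g : ℝ) ^ 3) ^ 2 ^ (j + 1)) ^ 2 := by
  obtain ⟨b, hb⟩ : ∃ b : ℕ, b = (g ^ 3) ^ 2 ^ (j + 1) := ⟨_, rfl⟩
  have hb1 : 1 ≤ b := by
    rw [hb]
    exact Nat.one_le_pow _ _ (Nat.one_le_pow _ _ hg)
  have hsub : blk q g Z j ⊆ Finset.Icc 1 b := by
    intro ℓ hℓ
    unfold blk at hℓ
    rw [Finset.mem_sdiff, mem_WP] at hℓ
    rw [Finset.mem_Icc, hb]
    exact ⟨hℓ.1.1.1.one_lt.le, hℓ.1.2.2⟩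
  have hcard : (blk q g Z j).card ≤ b := by
    have h1 := Finset.card_le_card hsub
    rwa [Nat.card_Icc, Nat.add_sub_cancel] at h1
  have h1 : ∑ ℓ ∈ blk q g Z j, (2 * (ℓ : ℝ)) ≤ (blk q g Z j).card • (2 * (b : ℝ)) := by
    refine Finset.sum_le_card_nsmul _ _ _ fun ℓ hℓ => ?_
    have h2 : (ℓ : ℝ) ≤ b := by exact_mod_cast (Finset.mem_Icc.1 (hsub hℓ)).2
    linarith
  have h2 : ((blk q g Z j).card : ℝ) ≤ b := by exact_mod_cast hcard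
  have h3 : (1 : ℝ) ≤ b := by exact_mod_cast hb1
  have h4 : ((g : ℝ) ^ 3) ^ 2 ^ (j + 1) = (b : ℝ) := by
    rw [hb]
    push_cast
    rfl
  rw [h4]
  rw [nsmul_eq_mul] at h1
  nlinarith

theorem err_term (q g t : ℕ) (hg : 1 ≤ g) (Z : Finset ℕ) :
    ∏ j : Fin t, (1 + ∑ ℓ ∈ blk q g Z (j : ℕ), (2 * (ℓ : ℝ))) ^ (2 * (t - (j : ℕ))) ≤
      3 ^ (t * (t + 1)) * ((g : ℝ) ^ 3) ^ (16 * 2 ^ t) := by
  have hg1 : (1 : ℝ) ≤ (g : ℝ) ^ 3 := one_le_pow₀ (by exact_mod_cast hg)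
  refine le_trans (Finset.prod_le_prod (fun j _ => ?_) fun j _ => ?_) (prod_err t _ hg1)
  · have h1 : 0 ≤ ∑ ℓ ∈ blk q g Z (j : ℕ), (2 * (ℓ : ℝ)) :=
      Finset.sum_nonneg fun ℓ _ => by positivity
    positivity
  · have h1 : 0 ≤ ∑ ℓ ∈ blk q g Z (j : ℕ), (2 * (ℓ : ℝ)) :=
      Finset.sum_nonneg fun ℓ _ => by positivity
    exact pow_le_pow_left₀ (by linarith) (R9b_one q g hg Z j) _

end TR
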