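import Pool.Agent.Lib.MP_021685_agTR.R5
import Pool.Agent.Lib.MP_021685_agTR.R6
import Pool.Agent.Lib.MP_021685_agTR.R9a
import Pool.Agent.Lib.MP_021685_agTR.R9b

/-! LEAF R9 (medium).  The sieve on one interval.

PROOF.  `g₀` from `choice` (it is `≥ 3`), `C₁` from `main_term q hq K`.  Let `g ≥ g₀`, `t` from `choice`, `P j = blk q g Z j` (`j : Fin t`), `k j = 2 (t - j)` (even), `E ℓ c = Ex A D ℓ c`, `d = delt`, `M ℓ = 2 ℓ`.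
`P j ⊆ PgJ q g \ Z`: `ℓ ∈ P j` is prime, odd, `∤ q`, `q` is a square mod `ℓ`, `ℓ > (g³)^(2^j) ≥ g³`, `ℓ ≤ (g³)^(2^(j+1)) ≤ (g³)^(2^t) ≤ (1001/1000)^g` (`j < t`; second part of `choice`; `Nat.le_floor`), `ℓ ∉ Z`.  The `P j` are disjoint (`ℓ ≤ (g³)^(2^(i+1)) ≤ (g³)^(2^j)` for `i < j`).
The left side is at most the number of the `c` with `∀ j, ∀ ℓ ∈ P j, ¬ Ex A D ℓ c`; `hooley` (with `hN` from `multi`: all `ℓ ∈ S` are in `PgJ q g \ Z`, so they are odd primes, `∤ D`, `D` is a square mod `ℓ`).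
MAIN TERM: `main_term` and the third part of `choice`: `∏_j trunc .. ≤ C₁/2^t ≤ C₁ 54000 log g/g`.  `C = 54000 C₁`.  ERROR TERM: `err_term` and the first part of `choice`. -/

namespace TR

open TI TJ

private theorem R9_mono {g i j : ℕ} (hg : 1 ≤ g) (hij : i ≤ j) : (g ^ 3) ^ 2 ^ i ≤ (g ^ 3) ^ 2 ^ j :=
  Nat.pow_le_pow_right (Nat.pos_of_ne_zero (pow_ne_zero _ (by omega))) (Nat.pow_le_pow_right (by norm_num) hij)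

private theorem R9_dis {q g i j : ℕ} {Z : Finset ℕ} (hg : 1 ≤ g) (hij : i < j) :
    Disjoint (blk q g Z i) (blk q g Z j) := by
  rw [Finset.disjoint_left]
  intro ℓ h1 h2
  rw [blk, Finset.mem_sdiff, mem_WP] at h1 h2
  have h3 := h1.1.2.2
  have h4 := h2.1.2.1
  have h5 := R9_mono (g := g) hg (show i + 1 ≤ j from hij)
  omega

private theorem R9_sub {q g t : ℕ} {Z : Finset ℕ} (hg : 1 ≤ g)
    (ht : ((g : ℝ) ^ 3) ^ 2 ^ t ≤ (1001 / 1000) ^ g) (j : Fin t) {ℓ : ℕ} (hℓ : ℓ ∈ blk q g Z (j : ℕ)) :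
    ℓ ∈ PgJ q g \ Z := by
  rw [blk, Finset.mem_sdiff, mem_WP] at hℓ
  obtain ⟨⟨⟨hp, ho, hd, hs⟩, h1, h2⟩, hZ⟩ := hℓ
  have h3 := R9_mono (g := g) hg (Nat.zero_le (j : ℕ))
  have h4 := R9_mono (g := g) hg (show (j : ℕ) + 1 ≤ t from j.2)
  rw [pow_zero, pow_one] at h3
  have h5 : (ℓ : ℝ) ≤ (1001 / 1000) ^ g := by
    refine le_trans ?_ ht
    exact_mod_cast h2.trans h4
  refine Finset.mem_sdiff.2 ⟨?_, hZ⟩
  simp only [PgJ, Finset.mem_filter, Finset.mem_Icc]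
  exact ⟨⟨hp.one_le, Nat.le_floor h5⟩, hp, by omega, ho, hd, hs⟩

open Classical in
theorem brun (q : ℕ) (hq : 1 ≤ q) (K : ℝ) (hK : 0 ≤ K) : ∃ C : ℝ, 0 ≤ C ∧ ∃ g₀ : ℕ, 3 ≤ g₀ ∧ ∀ g : ℕ, g₀ ≤ g →
    ∀ Z : Finset ℕ, (Z.card : ℝ) ≤ K * (g : ℝ) ^ 2 → ∀ A D : ℤ,
      (∀ ℓ ∈ PgJ q g \ Z, ¬ (ℓ : ℤ) ∣ D ∧ IsSquare ((D : ℤ) : ZMod ℓ)) → ∀ lo hi : ℤ,
        ((((Finset.Icc lo hi).filter (fun c : ℤ => ∀ ℓ ∈ PgJ q g \ Z, ¬ Ex A D ℓ c)).card : ℕ) : ℝ) ≤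
          C * Real.log g / g * ((Finset.Icc lo hi).card : ℝ) + (1001 / 1000) ^ (4 * g) := by
  obtain ⟨g₀, hg₀, hch⟩ := choice
  obtain ⟨C₁, hC₁, hmain⟩ := main_term q hq K hK
  refine ⟨54000 * C₁, by positivity, g₀, hg₀, fun g hg Z hZ A D hD lo hi => ?_⟩
  obtain ⟨t, ht1, ht2, ht3⟩ := hch g hg
  have hg1 : 1 ≤ g := by omega
  have hdis : ∀ i j : Fin t, i ≠ j → Disjoint (blk q g Z (i : ℕ)) (blk q g Z (j : ℕ)) := by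
    intro i j hij
    rcases lt_or_gt_of_ne (fun h => hij (Fin.ext h) : (i : ℕ) ≠ (j : ℕ)) with h | h
    · exact R9_dis hg1 h
    · exact (R9_dis hg1 h).symm
  have hN : ∀ S : Finset ℕ, (∀ ℓ ∈ S, ∃ j : Fin t, ℓ ∈ blk q g Z (j : ℕ)) →
      |((((Finset.Icc lo hi).filter (fun c : ℤ => ∀ ℓ ∈ S, Ex A D ℓ c)).card : ℕ) : ℝ) -
        ((Finset.Icc lo hi).card : ℝ) * ∏ ℓ ∈ S, delt ℓ| ≤ ∏ ℓ ∈ S, (2 * (ℓ : ℝ)) := by
    intro S hS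
    refine multi A D S (fun ℓ hℓ => ?_) lo hi
    obtain ⟨j, hj⟩ := hS ℓ hℓ
    have h1 := hD ℓ (R9_sub hg1 ht2 j hj)
    have h2 := hj
    rw [blk, Finset.mem_sdiff, mem_WP] at h2
    exact ⟨h2.1.1.1, h2.1.1.2.1, h1.1, h1.2⟩
  have h1 := hooley (Finset.Icc lo hi) t (fun j => blk q g Z (j : ℕ)) (fun j => 2 * (t - (j : ℕ)))
    (fun j => even_two_mul _) hdis (fun ℓ c => Ex A D ℓ c) delt (fun ℓ => 2 * (ℓ : ℝ))
    (fun j ℓ _ => by positivity) hN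
  have h2 := hmain g (by omega) Z t hZ
  have h3 := err_term q g t hg1 Z
  have h4 : ((((Finset.Icc lo hi).filter (fun c : ℤ => ∀ ℓ ∈ PgJ q g \ Z, ¬ Ex A D ℓ c)).card : ℕ) : ℝ) ≤
      ((((Finset.Icc lo hi).filter (fun c : ℤ => ∀ j : Fin t, ∀ ℓ ∈ blk q g Z (j : ℕ), ¬ Ex A D ℓ c)).card : ℕ) :
        ℝ) := by
    refine Nat.cast_le.2 (Finset.card_le_card fun c hc => ?_)
    rw [Finset.mem_filter] at hc ⊢
    exact ⟨hc.1, fun j ℓ hℓ => hc.2 ℓ (R9_sub hg1 ht2 j hℓ)⟩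
  have h5 : (0 : ℝ) ≤ ((Finset.Icc lo hi).card : ℝ) := Nat.cast_nonneg _
  calc ((((Finset.Icc lo hi).filter (fun c : ℤ => ∀ ℓ ∈ PgJ q g \ Z, ¬ Ex A D ℓ c)).card : ℕ) : ℝ)
      ≤ ((Finset.Icc lo hi).card : ℝ) * ∏ j : Fin t, trunc (2 * (t - (j : ℕ))) (blk q g Z (j : ℕ)) delt +
          ∏ j : Fin t, (1 + ∑ ℓ ∈ blk q g Z (j : ℕ), (2 * (ℓ : ℝ))) ^ (2 * (t - (j : ℕ))) := h4.trans h1
    _ ≤ ((Finset.Icc lo hi).card : ℝ) * (C₁ * (54000 * (Real.log g / g))) + (1001 / 1000) ^ (4 * g) :=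
        add_le_add (mul_le_mul_of_nonneg_left (h2.trans (mul_le_mul_of_nonneg_left ht3 hC₁)) h5) (h3.trans ht1)
    _ = 54000 * C₁ * Real.log g / g * ((Finset.Icc lo hi).card : ℝ) + (1001 / 1000) ^ (4 * g) := by ring

end TR
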