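import Pool.Agent.Lib.MP_021685_agTJ.J0
import Pool.Agent.Lib.MP_021685_agTI.D2

/-! Definitions of the block TR (Brun's sieve in Hooley's form instead of Turan's inequality). -/

namespace TR

open Classical in
/-- the primes `ℓ` with `a < ℓ ≤ b`, odd, not dividing `q`, modulo which `q` is a square -/
noncomputable def WP (q a b : ℕ) : Finset ℕ :=
  (Finset.Icc 1 b).filter
    (fun ℓ => ℓ.Prime ∧ a < ℓ ∧ Odd ℓ ∧ ¬ ℓ ∣ q ∧ IsSquare ((q : ℕ) : ZMod ℓ))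

/-- the truncated sum over the subsets `S` of `P` with at most `k` elements of the products of the `- f i`, `i ∈ S` -/
noncomputable def trunc (k : ℕ) (P : Finset ℕ) (f : ℕ → ℝ) : ℝ :=
  ∑ S ∈ P.powerset.filter (fun S => S.card ≤ k), ∏ i ∈ S, (- f i)

/-- the `j`-th block of primes of the sieve, without the members of `Z` -/
noncomputable def blk (q g : ℕ) (Z : Finset ℕ) (j : ℕ) : Finset ℕ :=
  WP q ((g ^ 3) ^ 2 ^ j) ((g ^ 3) ^ 2 ^ (j + 1)) \ Z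

theorem mem_WP {q a b ℓ : ℕ} : ℓ ∈ WP q a b ↔
    (ℓ.Prime ∧ Odd ℓ ∧ ¬ ℓ ∣ q ∧ IsSquare ((q : ℕ) : ZMod ℓ)) ∧ a < ℓ ∧ ℓ ≤ b := by
  simp only [WP, Finset.mem_filter, Finset.mem_Icc]
  constructor
  · rintro ⟨⟨_, h1⟩, h2, h3, h4, h5, h6⟩
    exact ⟨⟨h2, h4, h5, h6⟩, h3, h1⟩
  · rintro ⟨⟨h2, h4, h5, h6⟩, h3, h1⟩
    exact ⟨⟨by omega, h1⟩, h2, h3, h4, h5, h6⟩

theorem WP_split {q a b c : ℕ} (hab : a ≤ b) (hbc : b ≤ c) (f : ℕ → ℝ) :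
    ∑ ℓ ∈ WP q a c, f ℓ = ∑ ℓ ∈ WP q a b, f ℓ + ∑ ℓ ∈ WP q b c, f ℓ := by
  have hd : Disjoint (WP q a b) (WP q b c) := by
    rw [Finset.disjoint_left]
    intro ℓ h1 h2
    rw [mem_WP] at h1 h2
    have h3 := h1.2.2
    have h4 := h2.2.1
    omega
  rw [← Finset.sum_union hd]
  refine Finset.sum_congr ?_ fun _ _ => rfl
  ext ℓ
  rw [Finset.mem_union, mem_WP, mem_WP, mem_WP]
  constructor
  · rintro ⟨h, h1, h2⟩
    rcases le_or_gt ℓ b with h3 | h3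
    · exact Or.inl ⟨h, h1, h3⟩
    · exact Or.inr ⟨h, h3, h2⟩
  · rintro (⟨h, h1, h2⟩ | ⟨h, h1, h2⟩)
    · exact ⟨h, h1, h2.trans hbc⟩
    · exact ⟨h, by omega, h2⟩

end TR
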